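import Pool.Agent.H57.OW.C6
import Pool.Agent.H48.OW.Hy
import Pool.Agent.H70.OW.Clk

/-!
# [H57 OW C6Q] MP_b39724_nt, THEOREM OW, piece c6 in the notation of H48/OW/Hy

* `kr2_rhc`: if the constant `rhc` of a cell is not `0` then `Kr2 ≠ 0` at the values. `kr2_fx2`: if `FX2 ≠ 0` then `Kr2 ≠ 0`.
* `c6q`: `Hy`, `Hq`, `v ∈ Fr`, `Rp` and `Cn2` at `up b v l`, `Kr2 ≠ 0`: not unlinked.
-/

set_option autoImplicit false

open scoped NumberField commutatorElement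
open IsDedekindDomain
open scoped Classical

noncomputable section

namespace H57.OW

open H63.MA H38.BB H38.BG H57.PC H57.BRA H77.WD H77.WE H77.PC3 H35.CF H35.UB H77.S3 H71.S3 H1.S3
  H73.S3 H73.OW H82.S3 H12.OW H48.OW H35.OW

theorem kr2_rhc {S P St Pt : Type} [Group S] [Group P] [MulDistribMulAction P S] [Group St] [Group Pt]
    [MulDistribMulAction Pt St] {J V : Type} {q d : ℕ} {X : AD S P J V} {Y : AD St Pt J V} {EV : SP St Pt →* SP S P}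
    {psi : St → ZMod q} {τ : V → St} {x0 : J → SP St Pt} {e : J → El2 S P q d} {η : J → Du St q d × Du St q (d + 1)}
    (h : H70.OW.rhc X Y EV psi τ x0 e η ≠ 0) : X.Kr2 e (fun j => EV (x0 j)) ≠ 0 := by
  unfold H70.OW.rhc at h
  have h1 := right_ne_zero_of_mul h
  rw [Finset.prod_ne_zero_iff] at h1
  unfold AD.Kr2
  rw [Finset.prod_ne_zero_iff]
  intro j hj
  have h2 := h1 j hj
  by_cases hp : X.pp j
  · rw [if_pos hp] at h2 ⊢
    exact left_ne_zero_of_mul h2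
  · rw [if_neg hp] at h2 ⊢
    exact left_ne_zero_of_mul h2

variable {K : Type} [Field K] [NumberField K] {Ω : Type} [Field Ω] [Algebra K Ω]
  {p N : ℕ} {ζ : K} {D : RD0 K p ζ} {Q : DP K Ω} {A : GS D Ω} {P : Type} [Group P] {hp : p.Prime}
  {c : CL p N P} {Pa : Par} {q : ℕ}

theorem kr2_fx2 {S : Type} [Group S] [MulDistribMulAction P S] {d : ℕ} {G : SG c S} {B : SD D Q A} {X : FD A P S} {W : WF A}
    {T : ℝ} {Zc : Finset (Pl K)}
    {hx : ∀ f : Pl K → Option (Px c), (adf G B X W T Zc f).Jf → Du S q (d + 1) × Du S q (d + 1 + 1)}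
    {Bf : ∀ i j : ℕ, Gr S i →+ Gr S j →+ ZMod q} {τ₀ : Pl K → S} {e₀ : Pl K ⊕ Fin A.g → El2 S P q d}
    {f : Pl K → Option (Elb2 c S q d)} (h : FX2 G B X W T Zc hx Bf τ₀ e₀ f ≠ 0) :
    (adx2 G B X W T Zc f).Kr2 (ef2 e₀ f) ((adx2 G B X W T Zc f).vl (tf2 τ₀ f)) ≠ 0 := by
  unfold FX2 at h
  intro h0
  apply h
  rw [h0]
  split_ifs <;> rfl

theorem c6q {h : ℕ} (hh : 1 ≤ h) [NeZero q] [Finite P] {G : SG c (Sp Pa (Px c))}
    {G' : SG (cO hp c (2 * h + 1)) (So hp c (2 * h + 1) Pa)} {B : SD D Q A} {X : FD A P (Sp Pa (Px c))} {W : WF A}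
    {Zc : Finset (Pl K)} {k Mw : ℕ} (H : Hy hp G G' B X W Zc k Mw q)
    {x : (Px c → Du (Sp Pa (Px c)) q (2 * h + 1)) × (P → Du (Sp Pa (Px c)) q (2 * h + 1 + 1))}
    {Bf : ∀ i j : ℕ, Gr (Sp Pa (Px c)) i →+ Gr (Sp Pa (Px c)) j →+ ZMod q} {psi : So hp c (2 * h + 1) Pa → ZMod q}
    (Hx : Hq hp G X W q (2 * h) x Bf psi) {T : ℝ} {b : Pl K → Option (Elb2 c (Sp Pa (Px c)) q (2 * h))}
    {l : Fin (2 * h + 1) → Elb2 c (Sp Pa (Px c)) q (2 * h)} {v : Fin (2 * h + 1) → Pl K}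
    (hv : v ∈ H35.CF.Fr Zc (PPc X W T) b (2 * h + 1)) {r0 : Px c} {w : Fin h → Px c} {τ₀ : Pl K → Sp Pa (Px c)}
    {e₀ : Pl K ⊕ Fin A.g → El2 (Sp Pa (Px c)) P q (2 * h)} {Mr : ℕ} (hR : Rp G B X W T Zc (pat r0 w) e₀ (up b v l) v)
    (hC : Cn2 G B X W T Zc (fun f => H88.OW.etX G B X W T Zc f x) Mr e₀ (up b v l))
    (hK : (adx2 G B X W T Zc (up b v l)).Kr2 (ef2 e₀ (up b v l))
      ((adx2 G B X W T Zc (up b v l)).vl (tf2 τ₀ (up b v l))) ≠ 0)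
    (hbad : Bf (h + 1) (h + 1) (gk (h + 1) (H62.BL.rn (G.y r0 :: List.ofFn fun i => G.y (w i))))
      (gk (h + 1) (H62.BL.rn (G.y r0 :: List.ofFn fun i => G.y (w i)))) ≠ 0)
    (Qs : Subgroup (Sd (P × Ci p (2 * h + 1)) (Du (So hp c (2 * h + 1) Pa) q (2 * h + 1)))) :
    ¬Ulk Qs (fun k => G'.y (mkx (l k).1 (some k))) fun k =>
      (etq G' B X W T Zc psi τ₀ e₀ (up b v l) v (Sum.inl (v k))).1 := by
  have hv' := mem_fr.1 hv
  have hl : ∀ k, (l k).1 = pat r0 w k := by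
    intro k
    have h1 := hR.1 k
    unfold lf2 at h1
    rw [up_of b v l hv'.2 k] at h1
    exact Option.some_injective _ h1
  have h2 : ∀ k, v k ∈ Zc ∧ PPc X W T (v k) := fun k => ⟨(hv'.1 k).1, (hv'.1 k).2.1⟩
  have hPK : H24.OW.PK (P × Ci p (2 * h + 1)) ((owl hp c (2 * h + 1)).Kk Pa Finset.univ) psi (2 * h + 1) :=
    { st := fun g u hu => H12.OW.kk_cjl g hu
      add := Hx.ps.add
      le := by
        have h3 := (owl hp c (2 * h + 1)).kk_le Pa (Finset.univ : Finset (Fin (2 * h + 1)))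
        rw [Finset.card_univ, Fintype.card_fin] at h3
        exact h3
      bot := Hx.ps.bot }
  have key := c6 hh H.hG H.hG' H.ze hv'.2 h2 (H.okY T _) hPK Hx.ps.com Hx.qb hR hC.2.1 hK hbad Qs
  have e1 : (fun k => G'.y (mkx (l k).1 (some k))) = fun k => G'.y (mkx (pat r0 w k) (some k)) := by
    funext k
    rw [hl k]
  rw [e1]
  exact key

end H57.OW
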