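import Pool.Agent.H57.OW.OlkA
import Pool.Agent.H48.OW.Cls
import Pool.Agent.H88.OW.Qdf

/-!
# [H57 OW C6] MP_b39724_nt, THEOREM OW, b8 (piece c6 of helper48): a tuple of places with the pattern is not unlinked

* `kr2_cl`: if `Kr2 ≠ 0` then the values are the cells modulo `gm d`. `pfx_cl`: then the prefixes `pfx` are those of the cells. `lf_q`: `Yq f v` lies over `adx2 f` (`Lf` of H62/OW/F2e).
* `c6`: `Rp` with the letters `pat r0 w`, `rz = etX`, `Kr2 ≠ 0` at the values, `Bf (h + 1) (h + 1) u u ≠ 0`: the functionals `(etq (v k)).1` with the own letters of `pat r0 w` are not unlinked.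
-/

set_option autoImplicit false

open scoped NumberField commutatorElement
open IsDedekindDomain
open scoped Classical

noncomputable section

namespace H57.OW

open H63.MA H38.BB H38.BG H57.PC H57.BRA H77.WD H77.WE H77.PC3 H35.CF H35.UB H77.S3 H71.S3 H1.S3
  H73.S3 H73.OW H82.S3 H12.OW H48.OW H35.OW

section ab

variable {S P : Type} [Group S] [Group P] [MulDistribMulAction P S] {J V : Type} {q d : ℕ}

theorem rp_ex (D : ℕ) (x : SP S P) : ∃ u ∈ gm S D, x = il u * rp D x := by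
  have h1 : x * (rp D x)⁻¹ ∈ (gm S D).map (SemidirectProduct.inl : S →* SP S P) := by
    have h2 := Quotient.mk_out (s := QuotientGroup.rightRel ((gm S D).map
      (SemidirectProduct.inl : S →* SP S P))) x
    exact QuotientGroup.rightRel_apply.1 h2
  obtain ⟨u, hu, hu2⟩ := h1
  refine ⟨u, hu, ?_⟩
  have h3 : il u = x * (rp D x)⁻¹ := hu2
  rw [h3, inv_mul_cancel_right]

theorem kf2_cl {D : ℕ} {χ : Dz S q D} {x₀ x : SP S P} (h : Kf2 D χ x₀ x ≠ 0) : ∃ u ∈ gm S D, x = il u * x₀ := by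
  unfold Kf2 at h
  by_cases h1 : rp D x = x₀
  · obtain ⟨u, hu, e⟩ := rp_ex D x
    rw [h1] at e
    exact ⟨u, hu, e⟩
  · rw [if_neg h1] at h
    exact absurd rfl h

theorem kr2_cl {X : AD S P J V} {e : J → El2 S P q d} {x : J → SP S P} (h : X.Kr2 e x ≠ 0) {j : J} (hj : j ∈ X.Jf) :
    ∃ u ∈ gm S d, x j = il u * (e j).2 := by
  unfold AD.Kr2 at h
  have h1 := Finset.prod_ne_zero_iff.1 h j hj
  by_cases hp : X.pp j
  · rw [if_pos hp] at h1
    exact kf2_cl h1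
  · rw [if_neg hp] at h1
    obtain ⟨u, hu, e⟩ := kf2_cl h1
    exact ⟨u, gm_anti d hu, e⟩

theorem gk1_il {u : S} (hu : u ∈ gm S 2) (x : SP S P) : gk 1 (il u * x).left = gk 1 x.left := by
  have h1 : (il u * x).left = u * x.left := by
    show u * ((1 : P) • x.left) = _
    rw [one_smul]
  have h2 : gk 1 u = (0 : Gr S 1) := (gk_zero (Subgroup.mem_top u)).2 hu
  rw [h1, gk_mul (Subgroup.mem_top _) (Subgroup.mem_top _), h2, zero_add]

/-- the prefixes depend on the values modulo `gm 2` only -/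
theorem pfx_cl {X : AD S P J V} (hbn : ∀ v ∈ X.l, (X.bl v).Nodup) (ht : ∀ j, j ∉ X.Jf → X.t j = 1) {x x' : J → SP S P}
    (hx : ∀ j ∈ X.Jf, ∃ u ∈ gm S 2, x j = il u * x' j) (v : V) : X.pfx x v = X.pfx x' v := by
  have hK : ∀ (g : SP S P), ∀ u ∈ gm S 2, H71.S3.cjl g u ∈ gm S 2 := fun g u hu => cjl_mem g hu
  have hb : ∀ w ∈ X.l, gk 1 (X.bk x w).left = gk 1 (X.bk x' w).left := by
    intro w hw
    have hc : ∀ j, ∃ n : S, n ∈ gm S 2 ∧ ⁅X.t j, x j⁆ = il n * ⁅X.t j, x' j⁆ := by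
      intro j
      by_cases hj : j ∈ X.Jf
      · obtain ⟨u, hu, e⟩ := hx j hj
        refine ⟨H24.OW.dl (X.t j) (x' j) u, ?_, ?_⟩
        · exact mul_mem (hK _ _ hu) (hK _ _ (inv_mem hu))
        · rw [e, H24.OW.dl_il]
      · refine ⟨1, one_mem _, ?_⟩
        rw [ht j hj, commutatorElement_one_left, commutatorElement_one_left, H71.S3.il_one, one_mul]
    choose n hn hn2 using hc
    obtain ⟨E, hE, h1, -⟩ := H24.OW.prod_ch (R := ℤ) (K := gm S 2) (psi := fun _ => 0) hK (fun _ _ _ _ => rfl)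
      (fun j => ⁅X.t j, x' j⁆) (fun j => ⁅X.t j, x j⁆) n (X.bl w) (hbn w hw) fun j _ => ⟨hn j, hn2 j⟩
    have h2 : X.bk x w = il E * X.bk x' w := h1
    rw [h2]
    exact gk1_il hE _
  unfold AD.pfx
  congr 1
  refine List.map_congr_left fun w hw => hb w ?_
  exact (List.takeWhile_sublist _).subset hw

end ab

variable {K : Type} [Field K] [NumberField K] {Ω : Type} [Field Ω] [Algebra K Ω]
  {p N : ℕ} {ζ : K} {D : RD0 K p ζ} {Q : DP K Ω} {A : GS D Ω} {P : Type} [Group P] {hp : p.Prime}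
  {c : CL p N P} {Pa : Par} {q : ℕ}

/-- `Yq f v` lies over `adx2 f` -/
theorem lf_q {d : ℕ} {G : SG c (Sp Pa (Px c))} {G' : SG (cO hp c (d + 1)) (So hp c (d + 1) Pa)} (hG : ∀ x, G.y x = sy Pa x)
    (hG' : ∀ x, G'.y x = sy Pa x) (B : SD D Q A) (X : FD A P (Sp Pa (Px c))) (W : WF A) (T : ℝ) (Zc : Finset (Pl K))
    (f : Pl K → Option (Elb2 c (Sp Pa (Px c)) q d)) (v : Fin (d + 1) → Pl K) :
    H62.OW.Lf (adx2 G B X W T Zc f) (Yq G' B X W T Zc f v) (EV hp c (d + 1) Pa) ((owl hp c (d + 1)).ev Pa) where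
  il u := EV_il u
  pj := rfl
  bl := rfl
  l := rfl
  W := rfl
  Jf := by
    have h := ado_jf (G := G) (G' := G') (B := B) (X := X) (W := W) (T := T) (Zc := Zc) (g := gq hp f v)
    rw [fe_gq] at h
    exact h
  pp j := by
    have h := ado_pp (G := G) (G' := G') (B := B) (X := X) (W := W) (T := T) (Zc := Zc) (g := gq hp f v) j
    rw [fe_gq] at h
    exact h
  t j := by
    have h := ado_t (G := G) (G' := G') (B := B) (X := X) (W := W) (T := T) (Zc := Zc) (g := gq hp f v) hG hG' j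
    rw [fe_gq] at h
    exact h

theorem c6 {h : ℕ} (hh : 1 ≤ h) [NeZero q] {G : SG c (Sp Pa (Px c))} {G' : SG (cO hp c (2 * h + 1)) (So hp c (2 * h + 1) Pa)}
    (hG : ∀ x, G.y x = sy Pa x) (hG' : ∀ x, G'.y x = sy Pa x) {B : SD D Q A} {X : FD A P (Sp Pa (Px c))} {W : WF A} {T : ℝ}
    {Zc : Finset (Pl K)} (hZE : Disjoint Zc X.E) {f : Pl K → Option (Elb2 c (Sp Pa (Px c)) q (2 * h))}
    {v : Fin (2 * h + 1) → Pl K} (hv : Function.Injective v) (hvz : ∀ k, v k ∈ Zc ∧ PPc X W T (v k)) {k Mw : ℕ}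
    (hok : (Yq G' B X W T Zc f v).Okw p k Mw q)
    {Bf : ∀ i j : ℕ, Gr (Sp Pa (Px c)) i →+ Gr (Sp Pa (Px c)) j →+ ZMod q} {psi : So hp c (2 * h + 1) Pa → ZMod q}
    (hP : H24.OW.PK (P × Ci p (2 * h + 1)) ((owl hp c (2 * h + 1)).Kk Pa Finset.univ) psi (2 * h + 1))
    (hB : ∀ i j : ℕ, 1 ≤ i → 1 ≤ j → i + j = 2 * h + 2 → ∀ T T' : Finset (Fin (2 * h + 1)), T ∪ T' = Finset.univ →
      ∀ u ∈ (owl hp c (2 * h + 1)).Kk Pa T, u ∈ gm (So hp c (2 * h + 1) Pa) i →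
      ∀ w ∈ (owl hp c (2 * h + 1)).Kk Pa T', w ∈ gm (So hp c (2 * h + 1) Pa) j →
        psi ⁅u, w⁆ = -Bf i j (gk i ((owl hp c (2 * h + 1)).ev Pa u)) (gk j ((owl hp c (2 * h + 1)).ev Pa w)))
    {ep : ℕ} {R : Subgroup P} {x : (Px c → Du (Sp Pa (Px c)) q (2 * h + 1)) × (P → Du (Sp Pa (Px c)) q (2 * h + 1 + 1))}
    (hQ : H88.OW.QB G.y ep R x.1 x.2 Bf) {r0 : Px c} {w : Fin h → Px c} {τ₀ : Pl K → Sp Pa (Px c)}
    {e₀ : Pl K ⊕ Fin A.g → El2 (Sp Pa (Px c)) P q (2 * h)} (hR : Rp G B X W T Zc (pat r0 w) e₀ f v)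
    (hrz : (adx2 G B X W T Zc f).rz ((adx2 G B X W T Zc f).et2 (ef2 e₀ f)) = H88.OW.etX G B X W T Zc (lf2 f) x)
    (hK : (adx2 G B X W T Zc f).Kr2 (ef2 e₀ f) ((adx2 G B X W T Zc f).vl (tf2 τ₀ f)) ≠ 0)
    (hbad : Bf (h + 1) (h + 1) (gk (h + 1) (H62.BL.rn (G.y r0 :: List.ofFn fun i => G.y (w i))))
      (gk (h + 1) (H62.BL.rn (G.y r0 :: List.ofFn fun i => G.y (w i)))) ≠ 0)
    (Qs : Subgroup (Sd (P × Ci p (2 * h + 1)) (Du (So hp c (2 * h + 1) Pa) q (2 * h + 1)))) :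
    ¬Ulk Qs (fun k => G'.y (mkx (pat r0 w k) (some k))) fun k =>
      (etq G' B X W T Zc psi τ₀ e₀ f v (Sum.inl (v k))).1 := by
  have hL := lf_q hG hG' B X W T Zc f v
  have hnE : ∀ k, v k ∉ X.E := fun k h2 => Finset.disjoint_left.1 hZE (hvz k).1 h2
  have hgq : ∀ k, gq hp f v (v k) = some (mkx (pat r0 w k) (some k)) := by
    intro k
    unfold gq
    rw [H93.OW.rc_of hv, hR.1 k]
    rfl
  have hmem : ∀ k, Sum.inl (v k) ∈ (Yq G' B X W T Zc f v).Jf ∧ (Yq G' B X W T Zc f v).pp (Sum.inl (v k)) := by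
    intro k
    have h1 : v k ∈ sp Zc (gq hp f v) := by
      rw [mem_sp, hgq k]
      exact ⟨(hvz k).1, Option.some_ne_none _⟩
    refine ⟨Finset.inl_mem_disjSum.2 (Finset.mem_union_left _ h1), h1, ?_⟩
    exact (ppo X W T (v k)).2 (hvz k).2
  have hta : ∀ k, (Yq G' B X W T Zc f v).t (Sum.inl (v k)) =
      il (sy Pa ((owl hp c (2 * h + 1)).pk (pat r0 w k) (some k))) := by
    intro k
    show (if v k ∈ X.E then (⟨(owl hp c (2 * h + 1)).inc Pa (X.sv (v k)), (X.φ (W.L.t (v k)), 1)⟩ :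
      SP (So hp c (2 * h + 1) Pa) (P × Ci p (2 * h + 1))) else
      (if v k ∈ Zc then gq hp f v (v k) else none).elim 1 fun s => il (G'.y s)) = _
    rw [if_neg (hnE k), if_pos (hvz k).1, hgq k]
    show il (G'.y (mkx (pat r0 w k) (some k))) = _
    rw [hG']
    rfl
  have hyX : ∀ k, (adx2 G B X W T Zc f).y (Sum.inl (v k)) = G.y (pat r0 w k) := by
    intro k
    show (if v k ∈ X.E then (⟨X.sv (v k), X.φ (W.L.t (v k))⟩ : SP (Sp Pa (Px c)) P) else
      (if v k ∈ Zc then lf2 f (v k) else none).elim 1 fun s => il (G.y s)).left = _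
    rw [if_neg (hnE k), if_pos (hvz k).1, hR.1 k]
    rfl
  -- the frame of S
  have hmX : ∀ k, Sum.inl (v k) ∈ (adx2 G B X W T Zc f).Jf ∧ (adx2 G B X W T Zc f).pp (Sum.inl (v k)) := fun k =>
    ⟨by rw [← hL.Jf]; exact (hmem k).1, (hL.pp _).1 (hmem k).2⟩
  have hbn : ∀ v' ∈ (adx2 G B X W T Zc f).l, ((adx2 G B X W T Zc f).bl v').Nodup := hok.bn
  have ht1 : ∀ j, j ∉ (adx2 G B X W T Zc f).Jf → (adx2 G B X W T Zc f).t j = 1 := fun j hj => by
    rw [← hL.t, hok.t1 j (by rw [hL.Jf]; exact hj), map_one]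
  have hcl : ∀ j ∈ (adx2 G B X W T Zc f).Jf, ∃ u ∈ gm (Sp Pa (Px c)) 2,
      EV hp c (2 * h + 1) Pa (xq G' B X W T Zc τ₀ f v j) = il u * (ef2 e₀ f j).2 := by
    intro j hj
    obtain ⟨u, hu, e⟩ := kr2_cl hK hj
    refine ⟨u, H73.OW.gm_le (by omega) hu, ?_⟩
    rw [xq_ev hG hG', e]
  -- equal letters have equal labels
  have hlab : ∀ i i', pat r0 w i = pat r0 w i' → ef2 e₀ f (Sum.inl (v i)) = ef2 e₀ f (Sum.inl (v i')) ∧
      tf2 τ₀ f (v i) = tf2 τ₀ f (v i') := by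
    intro i i' hi
    have h1 := (hR.2 i i' hi).1
    have h2 := hR.1 i
    unfold lf2 at h2
    obtain ⟨a, ha, -⟩ := Option.map_eq_some_iff.1 h2
    have ha' : f (v i') = some a := h1.symm.trans ha
    constructor
    · show (f (v i)).elim (e₀ (Sum.inl (v i))) (fun a => a.2.2.1) = (f (v i')).elim (e₀ (Sum.inl (v i'))) fun a => a.2.2.1
      rw [ha, ha']
      rfl
    · show (f (v i)).elim (τ₀ (v i)) (fun a => a.2.1) = (f (v i')).elim (τ₀ (v i')) fun a => a.2.1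
      rw [ha, ha']
      rfl
  have key := olkA hh (O := owl hp c (2 * h + 1)) hL hok hP hB r0 w (r := fun k => Sum.inl (v k)) hmem hta
    (rv := H93.OW.ixv v) (fun k => H93.OW.ixv_of hv k) (ze := fun j => (ef2 e₀ f j).1) ?_ (τ := tq hp τ₀ f)
    (x := xq G' B X W T Zc τ₀ f v) ?_ ?_ ?_ Qs
  · have e1 : (fun k => G'.y (mkx (pat r0 w k) (some k))) = fun k =>
        sy Pa ((owl hp c (2 * h + 1)).pk (pat r0 w k) (some k)) := by
      funext k
      rw [hG']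
      rfl
    rw [e1]
    exact key
  · -- the bad family
    intro k u hu
    have h1 := congrFun hrz ⟨Sum.inl (v k), (hmX k).1⟩
    have h2 : (adx2 G B X W T Zc f).rz ((adx2 G B X W T Zc f).et2 (ef2 e₀ f)) ⟨Sum.inl (v k), (hmX k).1⟩ =
        ((ef2 e₀ f (Sum.inl (v k))).1.1.rs, 0) := if_pos (hmX k).2
    have h3 : H88.OW.etX G B X W T Zc (lf2 f) x ⟨Sum.inl (v k), (hmX k).1⟩ = (x.1 (pat r0 w k), 0) := by
      refine (if_pos (hmX k).2).trans ?_
      show ((lf2 f (v k)).elim 0 x.1, _) = _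
      rw [hR.1 k]
      rfl
    rw [h2, h3] at h1
    have h4 := (Prod.mk.inj h1).1
    rw [← rs_gk _ hu]
    show (ef2 e₀ f (Sum.inl (v k))).1.1.rs.ap (gk (2 * h + 1) u) = _
    rw [h4, ← hQ.gen, hyX]
  · -- right parts
    intro j hj
    exact H71.S3.vl_rt _ _ _
  · -- types
    intro i i' hi
    obtain ⟨h1, h2⟩ := hlab i i' hi
    refine ⟨by beta_reduce; rw [h1], ?_, ?_, ?_⟩
    · show gk 1 ((owl hp c (2 * h + 1)).ev Pa (tq hp τ₀ f (v i))) = gk 1 ((owl hp c (2 * h + 1)).ev Pa (tq hp τ₀ f (v i')))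
      rw [ev_tq, ev_tq, h2]
    · obtain ⟨u, hu, e⟩ := hcl _ (hmX i).1
      obtain ⟨u', hu', e'⟩ := hcl _ (hmX i').1
      beta_reduce
      rw [e, e', gk1_il hu, gk1_il hu', h1]
    · have h3 := pfx_cl (X := adx2 G B X W T Zc f) hbn ht1 hcl
      show (adx2 G B X W T Zc f).pfx _ (v i) = (adx2 G B X W T Zc f).pfx _ (v i')
      rw [h3, h3]
      exact (hR.2 i i' hi).2
  · -- the bad word
    have e1 : (H62.BL.rn (sy Pa r0 :: List.ofFn fun i => sy Pa (w i))) =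
        H62.BL.rn (G.y r0 :: List.ofFn fun i => G.y (w i)) := by
      have e2 : (fun i => G.y (w i)) = fun i => sy Pa (w i) := funext fun i => hG _
      rw [hG, e2]
    rw [e1]
    exact hbad

end H57.OW
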