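import Pool.Agent.H88.OW.Dic

/-!
# [H57 OW ETX] MP_b39724_nt, THEOREM OW, S1: the family of a quasi Lie functional (bodies of `etx_kk`, `etx_ulk`, `etx_inj` of H88/OW/Dic)
-/

set_option autoImplicit false

open scoped NumberField commutatorElement
open IsDedekindDomain
open scoped Classical

noncomputable section

namespace H57.OW

open H63.MA H38.BB H38.BG H57.PC H57.BRA H77.WD H77.WE H77.PC3 H35.CF H35.UB H77.S3 H71.S3 H1.S3
  H73.S3 H88.OW

attribute [local instance 50] Fintype.ofFinite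

variable {K : Type} [Field K] [NumberField K] {Ω : Type} [Field Ω] [Algebra K Ω]
  {p N : ℕ} {ζ : K} {D : RD0 K p ζ} {Q : DP K Ω} {A : GS D Ω} {P : Type} [Group P]
  {c : CL p N P} {S : Type} [Group S] [MulDistribMulAction P S] {q m ep : ℕ}

/-- the right part of a letter is in `Rh` -/
theorem ph_rh (G : SG c S) (B : SD D Q A) (X : FD A P S) (W : WF A) (T : ℝ) (Zc : Finset (Pl K)) (hXo : X.Ok G B W)
    (f : Pl K → Option (Px c)) (w : FW A) : (adf G B X W T Zc f).ph w ∈ Rh X W := by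
  rw [ph_hat G B X W hXo T Zc f]
  exact ⟨w, rfl⟩

theorem etx_kk [Fintype S] [Fintype P] [NeZero q] (hp : p.Prime) (G : SG c S) (B : SD D Q A)
    (X : FD A P S) (W : WF A) {k Mw c₀ : ℕ} (T : ℝ) (Zc : Finset (Pl K))
    (hXo : X.Ok G B W) (hF : Frv G q m ep)
    (f : Pl K → Option (Px c)) (hok : (adf G B X W T Zc f).Ok p k Mw q c₀ G.Pi)
    (x : (Px c → Du S q m) × (P → Du S q (m + 1))) (hx : x ∈ QBs q m G X W ep) :
    (adf G B X W T Zc f).Kx (etX G B X W T Zc f x) (fun w => x.2 ((adf G B X W T Zc f).ph w)) ∧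
    (adf G B X W T Zc f).kk (etX G B X W T Zc f x) =
      fun w => x.2 ((adf G B X W T Zc f).ph w) := by
  obtain ⟨-, hcr, -⟩ := hF (Rh X W) x.1 x.2 (Finset.mem_filter.1 hx).2
  have h1 : x.2 1 = 0 := by
    have h := hcr 1 (one_mem _) 1 (one_mem _)
    rw [mul_one, one_smul] at h
    exact left_eq_add.1 h
  have hK : (adf G B X W T Zc f).Kx (etX G B X W T Zc f x) (fun w => x.2 ((adf G B X W T Zc f).ph w)) := by
    refine ⟨?_, ?_, ?_⟩
    · intro a b
      show x.2 ((adf G B X W T Zc f).ph (a * b)) = _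
      rw [map_mul]
      exact hcr _ (ph_rh G B X W T Zc hXo f a) _ (ph_rh G B X W T Zc hXo f b)
    · intro j hj
      show x.2 ((adf G B X W T Zc f).ph (FreeGroup.of j)) = 0
      have h2 : (adf G B X W T Zc f).ph (FreeGroup.of j) = ((adf G B X W T Zc f).t j).right := by
        unfold AD.ph
        rw [FreeGroup.lift_apply_of]
      have h3 : ((adf G B X W T Zc f).t j).right = 1 := by
        by_cases h : j ∈ (adf G B X W T Zc f).Jf
        · have h4 : (adf G B X W T Zc f).pp j := by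
            by_contra h5
            exact hj ⟨h, h5⟩
          rw [hok.pt j h h4]
          rfl
        · rw [hok.t1 j h]
          rfl
      rw [h2, h3, h1]
    · intro j hj
      unfold etX AD.eX
      rw [if_neg hj]
  exact ⟨hK, kx_uniq _ hp hok m _ _ _ (hk_iff _ hp hok m _).1 hK⟩

/-- the letter at a place of the support -/
theorem adf_y (G : SG c S) (B : SD D Q A) (X : FD A P S) (W : WF A) (T : ℝ) (Zc : Finset (Pl K)) (hZE : Disjoint Zc X.E)
    (f : Pl K → Option (Px c)) {v : Pl K} (hv : v ∈ Zc) {s : Px c} (hs : f v = some s) :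
    (adf G B X W T Zc f).y (Sum.inl v) = G.y s := by
  have h2 : v ∉ X.E := Finset.disjoint_left.1 hZE hv
  unfold AD.y
  simp only [adf, Sum.elim_inl, if_neg h2, if_pos hv, hs, Option.elim]
  rfl

theorem etx_pp (G : SG c S) (B : SD D Q A) (X : FD A P S) (W : WF A) (T : ℝ) (Zc : Finset (Pl K))
    (f : Pl K → Option (Px c)) (x : (Px c → Du S q m) × (P → Du S q (m + 1))) {v : Pl K} (hv : v ∈ sp Zc f) (hp : PPc X W T v)
    {s : Px c} (hs : f v = some s) (hj : (Sum.inl v : Pl K ⊕ Fin A.g) ∈ (adf G B X W T Zc f).Jf) :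
    (etX G B X W T Zc f x ⟨Sum.inl v, hj⟩).1 = x.1 s := by
  unfold etX AD.eX
  have h1 : (adf G B X W T Zc f).pp (Sum.inl v) := ⟨hv, hp⟩
  rw [if_pos h1]
  show (f v).elim 0 x.1 = x.1 s
  rw [hs]
  rfl

theorem jf_mem (G : SG c S) (B : SD D Q A) (X : FD A P S) (W : WF A) (T : ℝ) (Zc : Finset (Pl K))
    (f : Pl K → Option (Px c)) {v : Pl K} (hv : v ∈ sp Zc f) : (Sum.inl v : Pl K ⊕ Fin A.g) ∈ (adf G B X W T Zc f).Jf := by
  show (Sum.inl v : Pl K ⊕ Fin A.g) ∈ (sp Zc f ∪ X.E).disjSum Finset.univ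
  rw [Finset.inl_mem_disjSum, Finset.mem_union]
  exact Or.inl hv

theorem etx_ulk [Fintype S] [Fintype P] [NeZero q] (hp : p.Prime) (G : SG c S) (B : SD D Q A)
    (X : FD A P S) (W : WF A) {k Mw c₀ : ℕ} (T : ℝ) (Zc : Finset (Pl K))
    (hZE : Disjoint Zc X.E) (hXo : X.Ok G B W) (hF : Frv G q m ep)
    (f : Pl K → Option (Px c)) (hok : (adf G B X W T Zc f).Ok p k Mw q c₀ G.Pi)
    (x : (Px c → Du S q m) × (P → Du S q (m + 1))) (hx : x ∈ QBs q m G X W ep)
    (e : Pl K ⊕ Fin A.g → El S P q m)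
    (he : (adf G B X W T Zc f).et e = etX G B X W T Zc f x)
    (v : Fin (m + 1) → Pl K) (hv : ∀ k, v k ∈ sp Zc f ∧ PPc X W T (v k)) :
    Ulk ((adf G B X W T Zc f).Qp ((adf G B X W T Zc f).kk ((adf G B X W T Zc f).et e)))
      (fun k => (adf G B X W T Zc f).y (Sum.inl (v k))) fun k => (e (Sum.inl (v k))).1.1 := by
  obtain ⟨-, hcr, hul⟩ := hF (Rh X W) x.1 x.2 (Finset.mem_filter.1 hx).2
  have h1 : x.2 1 = 0 := by
    have h := hcr 1 (one_mem _) 1 (one_mem _)
    rw [mul_one, one_smul] at h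
    exact left_eq_add.1 h
  have hs : ∀ k, ∃ s, f (v k) = some s := fun k => Option.ne_none_iff_exists'.1 (mem_sp.1 (hv k).1).2
  choose s hs using hs
  have h2 : (fun k => (adf G B X W T Zc f).y (Sum.inl (v k))) = fun k => G.y (s k) :=
    funext fun k => adf_y G B X W T Zc hZE f (mem_sp.1 (hv k).1).1 (hs k)
  have h3 : (fun k => (e (Sum.inl (v k))).1.1) = fun k => x.1 (s k) := by
    funext k
    have h4 := congrFun he ⟨Sum.inl (v k), jf_mem G B X W T Zc f (hv k).1⟩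
    have h5 : ((adf G B X W T Zc f).et e ⟨Sum.inl (v k), jf_mem G B X W T Zc f (hv k).1⟩).1 = (e (Sum.inl (v k))).1.1 := rfl
    rw [← h5, h4, etx_pp G B X W T Zc f x (hv k).1 (hv k).2 (hs k)]
  rw [h2, h3]
  refine hul _ ?_ s
  -- the group of the values
  let R' : Subgroup (Sd P (Du S q (m + 1))) :=
    { carrier := {u | u.x ∈ Rh X W ∧ u.n = x.2 u.x}
      mul_mem' := by
        rintro u w ⟨h6, h7⟩ ⟨h8, h9⟩
        refine ⟨mul_mem h6 h8, ?_⟩
        show u.n + u.x • w.n = x.2 (u.x * w.x)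
        rw [hcr _ h6 _ h8, h7, h9]
      one_mem' := ⟨one_mem _, h1.symm⟩
      inv_mem' := by
        rintro u ⟨h6, h7⟩
        refine ⟨inv_mem h6, ?_⟩
        show -(u.x⁻¹ • u.n) = x.2 u.x⁻¹
        have h8 := hcr _ (inv_mem h6) _ h6
        rw [inv_mul_cancel, h1] at h8
        rw [h7]
        exact (eq_neg_of_add_eq_zero_left h8.symm).symm }
  have h6 : (adf G B X W T Zc f).Qp ((adf G B X W T Zc f).kk ((adf G B X W T Zc f).et e)) ≤ R' := by
    unfold AD.Qp
    rw [Subgroup.closure_le]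
    rintro u ⟨j, rfl⟩
    refine ⟨ph_rh G B X W T Zc hXo f _, ?_⟩
    show (adf G B X W T Zc f).kk ((adf G B X W T Zc f).et e) (FreeGroup.of j) = x.2 ((adf G B X W T Zc f).ph (FreeGroup.of j))
    rw [he, (etx_kk hp G B X W T Zc hXo hF f hok x hx).2]
  exact fun u hu => h6 hu

theorem etx_inj [Fintype S] [Fintype P] [NeZero q] (G : SG c S) (B : SD D Q A)
    (X : FD A P S) (W : WF A) (T : ℝ) (Zc : Finset (Pl K))
    (hF : Frv G q m ep) (f : Pl K → Option (Px c)) (hr : Rich X W T Zc 1 f)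
    (x x' : (Px c → Du S q m) × (P → Du S q (m + 1))) (hx : x ∈ QBs q m G X W ep)
    (hx' : x' ∈ QBs q m G X W ep) (h : etX G B X W T Zc f x = etX G B X W T Zc f x') : x = x' := by
  have h1 : x.1 = x'.1 := by
    funext s
    obtain ⟨v, hv⟩ := Finset.card_pos.1 (Nat.lt_of_lt_of_le Nat.zero_lt_one (hr s))
    rw [Finset.mem_filter] at hv
    obtain ⟨hv1, hv2, hv3⟩ := hv
    have hv4 : v ∈ sp Zc f := mem_sp.2 ⟨hv1, by rw [hv2]; exact Option.some_ne_none _⟩
    have h2 := congrFun h ⟨Sum.inl v, jf_mem G B X W T Zc f hv4⟩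
    rw [← etx_pp G B X W T Zc f x hv4 hv3 hv2 (jf_mem G B X W T Zc f hv4), h2,
      etx_pp G B X W T Zc f x' hv4 hv3 hv2 (jf_mem G B X W T Zc f hv4)]
  have h2 : x'.2 = x.2 := by
    refine (hF (Rh X W) x.1 x.2 (Finset.mem_filter.1 hx).2).1 x'.2 ?_
    rw [h1]
    exact (Finset.mem_filter.1 hx').2
  exact Prod.ext h1 h2.symm

end H57.OW
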