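import Pool.Agent.H57.OW.Nlk
import Pool.Agent.H82.S3.Lea
import Pool.Agent.H88.S3.Unl

/-!
# [H57 OW FGP] MP_b39724_nt, THEOREM OW, S5: multilinear elements of the free group

`kil a` kills the letter `a`; `KF D`: the elements which die when any letter of `D` is killed. `rnl w`: the right normed commutator of the word `w`. `RNs D`: generated by the
`rnl w`, `w` a permutation of `D`. `brbr`: `[br u, br v]` is a combination of the `br w`, `w` a permutation of `u ++ v`. `dec`: `⁅x, y⁆ = g' h`, `g' ∈ RNs (u ++ v)`, `h ∈ KF ⊓ gam`,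
if `x`, `y` have the leading parts of `rnl u`, `rnl v`.
-/

set_option autoImplicit false

open scoped commutatorElement Classical

noncomputable section

namespace H57.OW

open H62.BL H82.S3 H88.S3 Pool.Agent.H61.Tu

variable {α : Type}

/-- kills the letter `a` -/
def kil (a : α) : FreeGroup α →* FreeGroup α := FreeGroup.lift fun b => if b = a then 1 else FreeGroup.of b

/-- the elements which die when any letter of `D` is killed -/
def KF (D : Set α) : Subgroup (FreeGroup α) where
  carrier := {g | ∀ a ∈ D, kil a g = 1}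
  one_mem' := fun a _ => map_one _
  mul_mem' := fun {x y} hx hy a ha => by rw [map_mul, hx a ha, hy a ha, one_mul]
  inv_mem' := fun {x} hx a ha => by rw [map_inv, hx a ha, inv_one]

theorem mem_kf {D : Set α} {g : FreeGroup α} : g ∈ KF D ↔ ∀ a ∈ D, kil a g = 1 := Iff.rfl

instance kf_nrm (D : Set α) : (KF D).Normal := ⟨fun g hg h a ha => by
  rw [map_mul, map_mul, hg a ha, mul_one, map_inv, mul_inv_cancel]⟩

theorem kf_of (a : α) : FreeGroup.of a ∈ KF {a} := fun b hb => by
  rw [Set.mem_singleton_iff.1 hb, kil, FreeGroup.lift_apply_of, if_pos rfl]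

theorem kf_comm {D D' : Set α} {g h : FreeGroup α} (hg : g ∈ KF D) (hh : h ∈ KF D') : ⁅g, h⁆ ∈ KF (D ∪ D') := by
  rintro a (ha | ha)
  · rw [map_commutatorElement, hg a ha, commutatorElement_one_left]
  · rw [map_commutatorElement, hh a ha, commutatorElement_one_right]

theorem kf_mono {D D' : Set α} (h : D ⊆ D') : KF D' ≤ KF D := fun _ hg a ha => hg a (h ha)

/-- the right normed commutator of a word -/
def rnl (w : List α) : FreeGroup α := H62.BL.rn (w.map FreeGroup.of)

theorem rnl_single (a : α) : rnl [a] = FreeGroup.of a := rfl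

theorem rnl_cons (a : α) {w : List α} (hw : w ≠ []) : rnl (a :: w) = ⁅FreeGroup.of a, rnl w⁆ := by
  cases w with
  | nil => exact absurd rfl hw
  | cons b w => rfl

theorem rnl_kf (w : List α) : rnl w ∈ KF {a | a ∈ w} := by
  induction w with
  | nil => exact one_mem _
  | cons a w ih =>
    by_cases hw : w = []
    · subst hw
      rw [rnl_single]
      refine kf_mono (fun b hb => ?_) (kf_of a)
      simpa using hb
    · rw [rnl_cons a hw]
      refine kf_mono (fun b hb => ?_) (kf_comm (kf_of a) ih)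
      rcases List.mem_cons.1 hb with h | h
      · exact Or.inl h
      · exact Or.inr h

theorem rnl_lp (w : List α) (hw : w ≠ []) : rnl w ∈ gam (FreeGroup α) (w.length - 1) ∧
    lp (w.length - 1) (rnl w) = (br w : List α → ℤ) := by
  induction w with
  | nil => exact absurd rfl hw
  | cons a w ih =>
    by_cases h : w = []
    · subst h
      exact ⟨Subgroup.mem_top _, lp_of a⟩
    · obtain ⟨h1, h2⟩ := ih h
      have h3 := List.length_pos_iff.2 h
      have e : (a :: w).length - 1 = 0 + (w.length - 1) + 1 := by rw [List.length_cons]; omega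
      rw [rnl_cons a h, e]
      refine ⟨comm_mem (⟨_, mem0 (FreeGroup.of a)⟩ : gam (FreeGroup α) 0) ⟨_, h1⟩, ?_⟩
      rw [lp_comm (mem0 (FreeGroup.of a)) h1, h2, lp_of, br_cons a h]
      rfl

theorem rnl_mem {w : List α} (hw : w ≠ []) {n : ℕ} (hn : w.length = n + 1) : rnl w ∈ gam (FreeGroup α) n := by
  have := (rnl_lp w hw).1
  rwa [hn, Nat.add_sub_cancel] at this

theorem lp_rnl {w : List α} (hw : w ≠ []) {n : ℕ} (hn : w.length = n + 1) : lp n (rnl w) = (br w : List α → ℤ) := by
  have := (rnl_lp w hw).2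
  rwa [hn, Nat.add_sub_cancel] at this

/-- the brackets of the permutations of `D` -/
def Bs (D : List α) : Submodule ℤ (AW α ℤ) := Submodule.span ℤ {x | ∃ w : List α, w.Perm D ∧ x = (br w : List α → ℤ)}

theorem aw_rb {L : Type*} [LieRing L] (f : α → L) (w : List α) {v : List α} (hv : v ≠ []) :
    aw f w (rb f v) = rb f (w ++ v) := by
  induction w with
  | nil => rfl
  | cons a w ih =>
    rw [List.cons_append, rb_cons f a (by simp [hv]), ← ih]
    rfl

attribute [local instance 100] LieRing.ofAssociativeRing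

theorem ev_lie (x y : FreeLieAlgebra ℤ α) : (ev ⁅x, y⁆ : List α → ℤ) = cv (ev x) (ev y) - cv (ev y) (ev x) := by
  show cf (FreeLieAlgebra.lift ℤ (FreeAlgebra.ι ℤ : α → FreeAlgebra ℤ α) ⁅x, y⁆) = _
  rw [LieHom.map_lie, Ring.lie_def, map_sub, cf_mul, cf_mul]
  rfl

theorem brbr {u v : List α} (hu : u ≠ []) (hv : v ≠ []) :
    (cv (br u : List α → ℤ) (br v) - cv (br v) (br u) : List α → ℤ) ∈ Bs (u ++ v) := by
  obtain ⟨c, hc, hz⟩ := exp1 (R := ℤ) (FreeLieAlgebra.of ℤ : α → FreeLieAlgebra ℤ α) u hu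
  have h1 := congrArg ev (hz (rb (FreeLieAlgebra.of ℤ) v))
  rw [ev_lie, ev_rb, ev_rb, Finsupp.linearCombination_apply, Finsupp.sum, map_sum] at h1
  rw [h1]
  refine (Bs (u ++ v)).sum_mem fun w hw => ?_
  rw [map_smul, aw_rb _ _ hv, ev_rb]
  exact (Bs (u ++ v)).smul_mem (c w) (Submodule.subset_span ⟨w ++ v, (hc w hw).append_right v, rfl⟩)

/-- generated by the right normed commutators of the permutations of `D` -/
def RNs (D : List α) : Subgroup (FreeGroup α) := Subgroup.closure {g | ∃ w : List α, w.Perm D ∧ g = rnl w}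

theorem rns_gam {D : List α} {n : ℕ} (hn : D.length = n + 1) : RNs D ≤ gam (FreeGroup α) n := by
  rw [RNs, Subgroup.closure_le]
  rintro g ⟨w, hw, rfl⟩
  have h1 : w.length = n + 1 := by rw [hw.length_eq, hn]
  exact rnl_mem (fun h => by rw [h, List.length_nil] at h1; omega) h1

theorem rns_kf (D : List α) : RNs D ≤ KF {a | a ∈ D} := by
  rw [RNs, Subgroup.closure_le]
  rintro g ⟨w, hw, rfl⟩
  exact kf_mono (fun a ha => (hw.mem_iff).2 ha) (rnl_kf w)

theorem rns_lp {D : List α} {n : ℕ} (hn : D.length = n + 1) {z : AW α ℤ} (hz : z ∈ Bs D) :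
    ∃ g ∈ RNs D, lp n g = z := by
  refine Submodule.span_induction (p := fun z _ => ∃ g ∈ RNs D, lp n g = z) ?_ ?_ ?_ ?_ hz
  · rintro x ⟨w, hw, rfl⟩
    have h1 : w.length = n + 1 := by rw [hw.length_eq, hn]
    exact ⟨rnl w, Subgroup.subset_closure ⟨w, hw, rfl⟩, lp_rnl (fun h => by rw [h, List.length_nil] at h1; omega) h1⟩
  · exact ⟨1, one_mem _, lp_one n⟩
  · rintro x y _ _ ⟨g, hg, rfl⟩ ⟨h, hh, rfl⟩
    exact ⟨g * h, mul_mem hg hh, lp_mul (rns_gam hn hg) (rns_gam hn hh)⟩
  · rintro r x _ ⟨g, hg, rfl⟩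
    exact ⟨g ^ r, zpow_mem hg r, lp_zpow (rns_gam hn hg) r⟩

theorem lead0 {n : ℕ} {g : FreeGroup α} (hg : g ∈ gam (FreeGroup α) n) (h : lp n g = 0) :
    g ∈ gam (FreeGroup α) (n + 1) := by
  obtain ⟨h', -, h2⟩ := lead hg 0 fun w => by
    rw [h]
    exact dvd_zero _
  rw [pow_zero, mul_one] at h2
  simpa using inv_mem h2

/-- decomposition -/
theorem dec {D : List α} {n : ℕ} (hn : D.length = n + 1) {g : FreeGroup α} (hg : g ∈ gam (FreeGroup α) n)
    (hk : g ∈ KF {a | a ∈ D}) (hb : lp n g ∈ Bs D) :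
    ∃ g' ∈ RNs D, ∃ h ∈ KF {a | a ∈ D} ⊓ gam (FreeGroup α) (n + 1), g = g' * h := by
  obtain ⟨g', h1, h2⟩ := rns_lp hn hb
  have h3 : g' ∈ KF {a | a ∈ D} := rns_kf D h1
  have h4 : g' ∈ gam (FreeGroup α) n := rns_gam hn h1
  have h5 : g'⁻¹ ∈ gam (FreeGroup α) n := Subgroup.inv_mem _ h4
  refine ⟨g', h1, g'⁻¹ * g, ⟨Subgroup.mul_mem _ (Subgroup.inv_mem _ h3) hk, lead0 (Subgroup.mul_mem _ h5 hg) ?_⟩, by group⟩
  rw [lp_mul h5 hg, lp_inv h4, h2, neg_add_cancel]

/-- the filtration of the free group by weights -/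
def fF (α : Type) (i : ℕ) : Subgroup (FreeGroup α) := gam (FreeGroup α) (i - 1)

theorem fil_fF : Fil (fF α) where
  nrm i := gam_normal _ _
  anti i := gam_anti (by omega)
  com i j a ha b hb := by
    rcases Nat.eq_zero_or_pos i with h | h
    · subst h
      rw [Nat.zero_add]
      have : (fF α j).Normal := gam_normal _ _
      rw [commutatorElement_def]
      exact mul_mem (Subgroup.Normal.conj_mem inferInstance b hb a) (inv_mem hb)
    · rcases Nat.eq_zero_or_pos j with h' | h'
      · subst h'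
        rw [Nat.add_zero]
        have : (fF α i).Normal := gam_normal _ _
        have : ⁅a, b⁆ = a * (b * a⁻¹ * b⁻¹) := by rw [commutatorElement_def]; group
        rw [this]
        exact mul_mem ha (Subgroup.Normal.conj_mem inferInstance _ (inv_mem ha) b)
      · have e : i + j - 1 = (i - 1) + (j - 1) + 1 := by omega
        show ⁅a, b⁆ ∈ gam _ (i + j - 1)
        rw [e]
        exact comm_mem (⟨a, ha⟩ : gam (FreeGroup α) (i - 1)) ⟨b, hb⟩

end H57.OW
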