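import Pool.Agent.H57.OW.Psh
import Pool.Agent.H12.OW.Kil

/-!
# [H57 OW FUL] MP_b39724_nt, THEOREM OW, S5: elements of full support

`ful`: an element `g ∈ gam n` of the free group which dies when any letter of the finite set `T` is killed is `g' h`, `g'` a product of right normed commutators of words of length
`n + 1` which contain every letter of `T`, `h ∈ KF T ⊓ gam (n + 1)`.
-/

set_option autoImplicit false

open scoped commutatorElement Classical

noncomputable section

namespace H57.OW

open H62.BL H82.S3 H88.S3 Pool.Agent.H61.Tu H12.OW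

variable {α : Type}

/-- the brackets of the words of length `n + 1` with all letters of `T` -/
def Bf (n : ℕ) (T : Finset α) : Submodule ℤ (AW α ℤ) :=
  Submodule.span ℤ {x | ∃ w : List α, w.length = n + 1 ∧ (∀ a ∈ T, a ∈ w) ∧ x = (br w : List α → ℤ)}

/-- the bracket of a word, as an element of the algebra -/
def bA (w : List α) : AW α ℤ := (br w : List α → ℤ)

theorem bA_cons (a : α) {w : List α} (hw : w ≠ []) : bA (a :: w) = le a * bA w - bA w * le a := br_cons a hw

theorem rsh_br_of {p : α → Prop} {w : List α} (h : ∀ a ∈ w, p a) : rsh p (br w : List α → ℤ) = (br w : List α → ℤ) := by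
  induction w with
  | nil => exact map_zero _
  | cons a w ih =>
    have ha : p a := h a List.mem_cons_self
    by_cases hw : w = []
    · subst hw
      have h1 : rsh p (le a : AW α ℤ) = le a := by rw [rsh_le, if_pos ha]
      exact h1
    · have ih' := ih fun b hb => h b (List.mem_cons_of_mem _ hb)
      have h1 : rsh p (le a : AW α ℤ) = le a := by rw [rsh_le, if_pos ha]
      show rsh p (bA (a :: w)) = bA (a :: w)
      rw [bA_cons a hw, map_sub, map_mul, map_mul, h1]
      have ih2 : rsh p (bA w) = bA w := ih'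
      rw [ih2]

theorem rsh_br_not {p : α → Prop} {w : List α} {a : α} (ha : a ∈ w) (h : ¬ p a) : rsh p (br w : List α → ℤ) = (0 : AW α ℤ) := by
  induction w with
  | nil => exact map_zero _
  | cons b w ih =>
    by_cases hw : w = []
    · subst hw
      have h2 : a = b := by simpa using ha
      subst h2
      have h1 : rsh p (le a : AW α ℤ) = 0 := by rw [rsh_le, if_neg h]
      exact h1
    · show rsh p (bA (b :: w)) = 0
      rcases List.mem_cons.1 ha with h2 | h2
      · subst h2
        have h1 : rsh p (le a : AW α ℤ) = 0 := by rw [rsh_le, if_neg h]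
        rw [bA_cons a hw, map_sub, map_mul, map_mul, h1, zero_mul, mul_zero, sub_zero]
      · have ih2 : rsh p (bA w) = 0 := ih h2
        rw [bA_cons b hw, map_sub, map_mul, map_mul, ih2, mul_zero, zero_mul, sub_zero]

theorem kil_kf (a : α) (g : FreeGroup α) : kil a g = kf (fun b => b ≠ a) g := by
  have : kil a = kf (fun b => b ≠ a) := by
    ext b
    rw [kil, kf, FreeGroup.lift_apply_of, FreeGroup.lift_apply_of]
    by_cases h : b = a
    · rw [if_pos h, if_neg (by simpa using h)]
    · rw [if_neg h, if_pos h]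
  rw [this]

theorem lp_bf {n : ℕ} {g : FreeGroup α} (hg : g ∈ gam (FreeGroup α) n) (T : Finset α) (hT : ∀ a ∈ T, kil a g = 1) :
    lp n g ∈ Bf n T := by
  induction T using Finset.induction_on with
  | empty =>
    have h1 := lp_ll hg
    have h2 : (LL ℤ α (n + 1) : Submodule ℤ (List α → ℤ)) ≤ Submodule.span ℤ {x | ∃ w : List α, w.length = n + 1 ∧ (∀ a ∈ (∅ : Finset α), a ∈ w) ∧ x = (br w : List α → ℤ)} := by
      refine Submodule.span_mono ?_
      rintro x ⟨w, hw, rfl⟩
      exact ⟨w, hw, fun a ha => absurd ha (Finset.notMem_empty a), rfl⟩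
    exact h2 h1
  | insert a T ha ih =>
    have h1 := ih fun b hb => hT b (Finset.mem_insert_of_mem hb)
    have h2 : rsh (fun b => b ≠ a) (lp n g) = 0 := by
      rw [← lp_kf, ← kil_kf, hT a (Finset.mem_insert_self a T), lp_one]
    have h3 : ∀ z ∈ Bf n T, z - rsh (fun b => b ≠ a) z ∈ Bf n (insert a T) := by
      intro z hz
      refine Submodule.span_induction (p := fun z _ => z - rsh (fun b => b ≠ a) z ∈ Bf n (insert a T)) ?_ ?_ ?_ ?_ hz
      · rintro x ⟨w, hw, hw2, rfl⟩
        by_cases h : a ∈ w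
        · rw [rsh_br_not h (by simp), sub_zero]
          exact Submodule.subset_span ⟨w, hw, fun b hb => by
            rcases Finset.mem_insert.1 hb with rfl | hb
            · exact h
            · exact hw2 b hb, rfl⟩
        · rw [rsh_br_of (p := fun b => b ≠ a) fun b hb hba => h (by rw [← hba]; exact hb), sub_self]
          exact zero_mem _
      · rw [map_zero, sub_self]
        exact zero_mem _
      · intro x y _ _ hx hy
        have e : x + y - rsh (fun b => b ≠ a) (x + y) = (x - rsh (fun b => b ≠ a) x) + (y - rsh (fun b => b ≠ a) y) := by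
          rw [map_add]
          abel
        rw [e]
        exact add_mem hx hy
      · intro r x _ hx
        have e : r • x - rsh (fun b => b ≠ a) (r • x) = r • (x - rsh (fun b => b ≠ a) x) := by
          rw [map_zsmul, smul_sub]
        rw [e]
        exact Submodule.smul_mem _ r hx
    have h4 := h3 _ h1
    rwa [h2, sub_zero] at h4

/-- generated by the right normed commutators of the words of length `n + 1` with all letters of `T` -/
def RNf (n : ℕ) (T : Finset α) : Subgroup (FreeGroup α) :=
  Subgroup.closure {g | ∃ w : List α, w.length = n + 1 ∧ (∀ a ∈ T, a ∈ w) ∧ g = rnl w}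

theorem rnf_gam (n : ℕ) (T : Finset α) : RNf n T ≤ gam (FreeGroup α) n := by
  rw [RNf, Subgroup.closure_le]
  rintro g ⟨w, hw, -, rfl⟩
  exact rnl_mem (fun h => by rw [h, List.length_nil] at hw; omega) hw

theorem rnf_kf (n : ℕ) (T : Finset α) : RNf n T ≤ KF {a | a ∈ T} := by
  rw [RNf, Subgroup.closure_le]
  rintro g ⟨w, -, hw, rfl⟩
  exact kf_mono (fun a ha => hw a ha) (rnl_kf w)

theorem rnf_lp {n : ℕ} {T : Finset α} {z : AW α ℤ} (hz : z ∈ Bf n T) : ∃ g ∈ RNf n T, lp n g = z := by
  refine Submodule.span_induction (p := fun z _ => ∃ g ∈ RNf n T, lp n g = z) ?_ ?_ ?_ ?_ hz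
  · rintro x ⟨w, hw, hw2, rfl⟩
    exact ⟨rnl w, Subgroup.subset_closure ⟨w, hw, hw2, rfl⟩, lp_rnl (fun h => by rw [h, List.length_nil] at hw; omega) hw⟩
  · exact ⟨1, one_mem _, lp_one n⟩
  · rintro x y _ _ ⟨g, hg, rfl⟩ ⟨h, hh, rfl⟩
    exact ⟨g * h, mul_mem hg hh, lp_mul (rnf_gam n T hg) (rnf_gam n T hh)⟩
  · rintro r x _ ⟨g, hg, rfl⟩
    exact ⟨g ^ r, zpow_mem hg r, lp_zpow (rnf_gam n T hg) r⟩

/-- decomposition -/
theorem ful {n : ℕ} {g : FreeGroup α} (hg : g ∈ gam (FreeGroup α) n) {T : Finset α} (hT : g ∈ KF {a | a ∈ T}) :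
    ∃ g' ∈ RNf n T, ∃ h ∈ KF {a | a ∈ T} ⊓ gam (FreeGroup α) (n + 1), g = g' * h := by
  obtain ⟨g', h1, h2⟩ := rnf_lp (lp_bf hg T fun a ha => hT a ha)
  have h3 : g' ∈ KF {a | a ∈ T} := rnf_kf n T h1
  have h4 : g' ∈ gam (FreeGroup α) n := rnf_gam n T h1
  have h5 : g'⁻¹ ∈ gam (FreeGroup α) n := Subgroup.inv_mem _ h4
  refine ⟨g', h1, g'⁻¹ * g, ⟨Subgroup.mul_mem _ (Subgroup.inv_mem _ h3) hT, lead0 (Subgroup.mul_mem _ h5 hg) ?_⟩, by group⟩
  rw [lp_mul h5 hg, lp_inv h4, h2, neg_add_cancel]

end H57.OW
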