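import Mathlib

/-!
# [H57 OW HW3] MP_b39724_nt, THEOREM OW, S5: the commutator identity (think 1835)

`f` a descending central filtration. `a ∈ f 1`, `x, y ∈ f d`, `u = ⁅a, x⁆`, `v = ⁅a, y⁆`. Exactly: `⁅a, ⁅x, y⁆⁆ ⁅x, y⁆ = ⁅u x, v y⁆`; modulo `f (2 d + 3)`:
`⁅a, t⁆ = ⁅x, v⁆ ⁅u, v⁆ ⁅u, t⁆ ⁅v, t⁆ ⁅u, y⁆`, `t = ⁅x, y⁆` (`hw3`).
-/

set_option autoImplicit false

open scoped commutatorElement

noncomputable section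

namespace H57.OW

variable {G : Type} [Group G]

/-- a descending filtration with normal members and the commutator law -/
structure Fil (f : ℕ → Subgroup G) : Prop where
  nrm : ∀ i, (f i).Normal
  anti : ∀ i, f (i + 1) ≤ f i
  com : ∀ i j, ∀ a ∈ f i, ∀ b ∈ f j, ⁅a, b⁆ ∈ f (i + j)

theorem Fil.le {f : ℕ → Subgroup G} (hf : Fil f) {i j : ℕ} (h : i ≤ j) : f j ≤ f i := by
  obtain ⟨k, rfl⟩ := Nat.exists_eq_add_of_le h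
  induction k with
  | zero => exact le_refl _
  | succ k ih => exact (hf.anti (i + k)).trans (ih (Nat.le_add_right _ _))

/-- the exact form -/
theorem hw_ex (a x y : G) : ⁅a, ⁅x, y⁆⁆ = ⁅⁅a, x⁆ * x, ⁅a, y⁆ * y⁆ * ⁅x, y⁆⁻¹ := by
  simp only [commutatorElement_def]
  group

/-- expansion of the commutator of two products -/
theorem comm_exp (u x v y : G) :
    ⁅u * x, v * y⁆ = (u * ⁅x, v⁆ * u⁻¹) * ⁅u, v⁆ * (v * (u * ⁅x, y⁆ * u⁻¹ * ⁅u, y⁆) * v⁻¹) := by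
  simp only [commutatorElement_def]
  group

/-- congruence modulo a normal subgroup inside another subgroup `K` -/
def Eqm (K F : Subgroup G) (x y : G) : Prop := x * y⁻¹ ∈ K ⊓ F

variable {K F : Subgroup G}

theorem eqm_refl (x : G) : Eqm K F x x := by
  unfold Eqm
  rw [mul_inv_cancel]
  exact one_mem _

theorem eqm_symm {x y : G} (h : Eqm K F x y) : Eqm K F y x := by
  unfold Eqm at *
  have := inv_mem h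
  simpa using this

theorem eqm_trans {x y z : G} (h : Eqm K F x y) (h' : Eqm K F y z) : Eqm K F x z := by
  unfold Eqm at *
  have := mul_mem h h'
  simpa [mul_assoc] using this

theorem eqm_mul [K.Normal] [F.Normal] {x y z w : G} (h : Eqm K F x y) (h' : Eqm K F z w) : Eqm K F (x * z) (y * w) := by
  unfold Eqm at *
  have h1 : x * z * (y * w)⁻¹ = x * (z * w⁻¹) * x⁻¹ * (x * y⁻¹) := by group
  rw [h1]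
  exact mul_mem (Subgroup.Normal.conj_mem inferInstance _ h' x) h

/-- conjugation by `g` -/
theorem eqm_conj {x g : G} (h : ⁅g, x⁆ ∈ K ⊓ F) : Eqm K F (g * x * g⁻¹) x := by
  unfold Eqm
  have : g * x * g⁻¹ * x⁻¹ = ⁅g, x⁆ := by rw [commutatorElement_def]
  rw [this]
  exact h

/-- the exact form, in the order used -/
theorem hw_ex2 (a x y : G) : ⁅a, ⁅x, y⁆⁆ =
    (⁅a, x⁆ * ⁅x, ⁅a, y⁆⁆ * ⁅a, x⁆⁻¹) * ⁅⁅a, x⁆, ⁅a, y⁆⁆ * (⁅a, y⁆ * ⁅⁅a, x⁆, ⁅x, y⁆⁆ * ⁅a, y⁆⁻¹) *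
      ⁅⁅a, y⁆, ⁅x, y⁆⁆ * ((⁅x, y⁆ * ⁅a, y⁆) * ⁅⁅a, x⁆, y⁆ * (⁅x, y⁆ * ⁅a, y⁆)⁻¹) := by
  rw [hw_ex, comm_exp]
  simp only [commutatorElement_def]
  group

/-- THE IDENTITY -/
theorem hw3 {f : ℕ → Subgroup G} (hf : Fil f) [K.Normal] {d : ℕ} (hd : 1 ≤ d) {a x y : G} (ha : a ∈ f 1)
    (hx : x ∈ f d) (hy : y ∈ f d) (k1 : ⁅x, ⁅a, y⁆⁆ ∈ K) (k2 : ⁅⁅a, x⁆, ⁅x, y⁆⁆ ∈ K) (k3 : ⁅⁅a, x⁆, y⁆ ∈ K) :
    Eqm K (f (2 * d + 3)) ⁅a, ⁅x, y⁆⁆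
      (⁅x, ⁅a, y⁆⁆ * ⁅⁅a, x⁆, ⁅a, y⁆⁆ * ⁅⁅a, x⁆, ⁅x, y⁆⁆ * ⁅⁅a, y⁆, ⁅x, y⁆⁆ * ⁅⁅a, x⁆, y⁆) := by
  haveI : ∀ i, (f i).Normal := hf.nrm
  have hu : ⁅a, x⁆ ∈ f (1 + d) := hf.com 1 d a ha x hx
  have hv : ⁅a, y⁆ ∈ f (1 + d) := hf.com 1 d a ha y hy
  have ht : ⁅x, y⁆ ∈ f (d + d) := hf.com d d x hx y hy
  have hcom : ∀ g z : G, z ∈ K → ⁅g, z⁆ ∈ K := by
    intro g z hz
    rw [commutatorElement_def]
    exact mul_mem (Subgroup.Normal.conj_mem inferInstance z hz g) (inv_mem hz)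
  have h1 : ⁅x, ⁅a, y⁆⁆ ∈ f (d + (1 + d)) := hf.com _ _ x hx _ hv
  have h2 : ⁅⁅a, x⁆, ⁅x, y⁆⁆ ∈ f ((1 + d) + (d + d)) := hf.com _ _ _ hu _ ht
  have h3 : ⁅⁅a, x⁆, y⁆ ∈ f ((1 + d) + d) := hf.com _ _ _ hu y hy
  have htv : ⁅x, y⁆ * ⁅a, y⁆ ∈ f (1 + d) := mul_mem (hf.le (by omega) ht) hv
  rw [hw_ex2]
  refine eqm_mul (eqm_mul (eqm_mul (eqm_mul ?_ (eqm_refl _)) ?_) (eqm_refl _)) ?_
  · exact eqm_conj ⟨hcom _ _ k1, hf.le (by omega) (hf.com _ _ _ hu _ h1)⟩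
  · exact eqm_conj ⟨hcom _ _ k2, hf.le (by omega) (hf.com _ _ _ hv _ h2)⟩
  · exact eqm_conj ⟨hcom _ _ k3, hf.le (by omega) (hf.com _ _ _ htv _ h3)⟩

end H57.OW
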