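import Pool.Agent.H57.OW.Fgp
import Pool.Agent.H82.S3.Sp

/-!
# [H57 OW LNK] MP_b39724_nt, THEOREM OW, S5: a bad family is linked (think 1835), words

`D0 = r :: (W ++ W.map σ)` the own letters (root `r`), `σ` an involution with `σ r = r`, `d = W.length ≥ 1`, `M = 2 d + 1` letters. `ψ` a function on the free group on the own
letters (the pull back of `psi~`), additive on `K = KF D0 ⊓ gam (2 d)` (`gam_(2d+1)`), `0` on `K ⊓ gam (2 d + 2)`, `σ`-invariant on `K ⊓ gam (2 d + 1)`. `ev` the evaluation of the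
letters, `Ff k` the part of the functional of the root `k` which depends on the evaluation only.
* `lnk0`: if `ch k w = Ff k (ev (rnl w)) + ψ ⁅k, rnl w⁆` (the functional of the root `k` at the right normed commutators) and `ch k w = - la (br (k :: w))` (NOT LINKED) then
  `ψ ⁅⁅r, rnl W⁆, ⁅r, rnl (W.map σ)⁆⁆ = 0`.
-/

set_option autoImplicit false

open scoped commutatorElement Classical

noncomputable section

namespace H57.OW

open H62.BL H82.S3 H88.S3 Pool.Agent.H61.Tu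

section bz

variable {G : Type} [Group G] {A : Type} [AddCommGroup A] {K : Subgroup G}

/-- as `bad_zero`, with the invariance at one element -/
theorem bad_zero' {f : ℕ → Subgroup G} (hf : Fil f) [K.Normal] {ψ : G → A} (had : AdK K ψ) {d : ℕ} (hd : 1 ≤ d)
    (hbot : ∀ x ∈ K ⊓ f (2 * d + 3), ψ x = 0) {a x y : G}
    (ha : a ∈ f 1) (hx : x ∈ f d) (hy : y ∈ f d) (hinv : ψ ⁅⁅a, y⁆, x⁆ = ψ ⁅⁅a, x⁆, y⁆)
    (k1 : ⁅x, ⁅a, y⁆⁆ ∈ K) (k2 : ⁅⁅a, x⁆, ⁅x, y⁆⁆ ∈ K) (k3 : ⁅⁅a, x⁆, y⁆ ∈ K) (k4 : ⁅⁅a, y⁆, ⁅x, y⁆⁆ ∈ K)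
    (k5 : ⁅⁅a, x⁆, ⁅a, y⁆⁆ ∈ K) (h1 : ψ ⁅a, ⁅x, y⁆⁆ = 0) (h2 : ψ ⁅⁅a, x⁆, ⁅x, y⁆⁆ = 0)
    (h4 : ψ ⁅⁅a, y⁆, ⁅x, y⁆⁆ = 0) : ψ ⁅⁅a, x⁆, ⁅a, y⁆⁆ = 0 := by
  have he := hw3 hf hd ha hx hy k1 k2 k3
  have m1 := mul_mem k1 k5
  have m2 := mul_mem m1 k2
  have m3 := mul_mem m2 k4
  have m4 := mul_mem m3 k3
  have h5 := had.eqm hbot m4 he
  rw [had _ m3 _ k3, had _ m2 _ k4, had _ m1 _ k2, had _ k1 _ k5, h1, h2, h4, add_zero, add_zero] at h5
  have h6 : ψ ⁅⁅a, x⁆, y⁆ = -ψ ⁅x, ⁅a, y⁆⁆ := by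
    rw [← hinv, ← commutatorElement_inv, had.inv k1]
  rw [h6] at h5
  have h7 : ψ ⁅x, ⁅a, y⁆⁆ + ψ ⁅⁅a, x⁆, ⁅a, y⁆⁆ + -ψ ⁅x, ⁅a, y⁆⁆ = ψ ⁅⁅a, x⁆, ⁅a, y⁆⁆ := by abel
  rw [h7] at h5
  exact h5.symm

end bz

variable {α : Type}

theorem kil_map {σ : α → α} (σσ : ∀ a, σ (σ a) = a) (a : α) (g : FreeGroup α) :
    kil a (FreeGroup.map σ g) = FreeGroup.map σ (kil (σ a) g) := by
  have h : (kil a).comp (FreeGroup.map σ) = (FreeGroup.map σ).comp (kil (σ a)) := by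
    ext b
    simp only [MonoidHom.comp_apply, FreeGroup.map.of, kil, FreeGroup.lift_apply_of]
    by_cases hb : b = σ a
    · subst hb
      rw [σσ, if_pos rfl, if_pos rfl, map_one]
    · have h2 : σ b ≠ a := fun h => hb (by rw [← h, σσ])
      rw [if_neg hb, if_neg h2, FreeGroup.map.of]
  exact DFunLike.congr_fun h g

theorem kf_map {σ : α → α} (σσ : ∀ a, σ (σ a) = a) {D D' : Set α} (hD : ∀ a ∈ D', σ a ∈ D) {g : FreeGroup α} (hg : g ∈ KF D) :
    FreeGroup.map σ g ∈ KF D' := fun a ha => by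
  rw [kil_map σσ, hg _ (hD a ha), map_one]

theorem rnl_map (σ : α → α) (w : List α) : FreeGroup.map σ (rnl w) = rnl (w.map σ) := by
  induction w with
  | nil => exact map_one _
  | cons a w ih =>
    by_cases h : w = []
    · subst h
      exact FreeGroup.map.of
    · rw [rnl_cons a h, map_commutatorElement, ih, List.map_cons, rnl_cons _ (by simpa using h), FreeGroup.map.of]

variable {T : Type} [Group T] {q d : ℕ}

/-- THEOREM -/
theorem lnk0 (hd : 1 ≤ d) (r : α) (W : List α) (hW : W.length = d) {σ : α → α} (σr : σ r = r) (σσ : ∀ a, σ (σ a) = a)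
    {D0 : List α} (hD0 : D0 = r :: (W ++ W.map σ)) (ev : FreeGroup α →* T) (hev : ∀ a, ev (FreeGroup.of (σ a)) = ev (FreeGroup.of a))
    (ψ : FreeGroup α → ZMod q) (Ff : α → T → ZMod q) (la : (List α → ZMod q) →ₗ[ZMod q] ZMod q) (ch : α → List α → ZMod q)
    (had : AdK (KF {a | a ∈ D0} ⊓ gam (FreeGroup α) (2 * d)) ψ)
    (hbot : ∀ x ∈ KF {a | a ∈ D0} ⊓ gam (FreeGroup α) (2 * d + 2), ψ x = 0)
    (htop : ∀ x ∈ KF {a | a ∈ D0} ⊓ gam (FreeGroup α) (2 * d + 1), ψ (FreeGroup.map σ x) = ψ x)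
    (hFs : ∀ k, Ff (σ k) = Ff k)
    (hFa : ∀ x ∈ gam T (2 * d - 1), ∀ y ∈ gam T (2 * d - 1), Ff r (x * y) = Ff r x + Ff r y)
    (hF1 : ∀ h ∈ KF {a | a ∈ W ++ W.map σ} ⊓ gam (FreeGroup α) (2 * d), ψ ⁅FreeGroup.of r, h⁆ = -Ff r (ev h))
    (hch : ∀ k w, (k :: w).Perm D0 → ch k w = Ff k (ev (rnl w)) + ψ ⁅FreeGroup.of k, rnl w⁆)
    (hla : ∀ k w, (k :: w).Perm D0 → ch k w = -la (br (k :: w)))
    (h2 : ψ ⁅⁅FreeGroup.of r, rnl W⁆, ⁅rnl W, rnl (W.map σ)⁆⁆ = 0)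
    (h4 : ψ ⁅⁅FreeGroup.of r, rnl (W.map σ)⁆, ⁅rnl W, rnl (W.map σ)⁆⁆ = 0) :
    ψ ⁅⁅FreeGroup.of r, rnl W⁆, ⁅FreeGroup.of r, rnl (W.map σ)⁆⁆ = 0 := by
  set W' := W.map σ with hW'
  have hWl : W'.length = d := by rw [hW', List.length_map, hW]
  have hWn : W ≠ [] := fun h => by rw [h, List.length_nil] at hW; omega
  have hWn' : W' ≠ [] := fun h => by rw [h, List.length_nil] at hWl; omega
  have hDl : D0.length = 2 * d + 1 := by rw [hD0, List.length_cons, List.length_append, hW, hWl]; omega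
  set K : Subgroup (FreeGroup α) := KF {a | a ∈ D0} ⊓ gam (FreeGroup α) (2 * d) with hK
  have gn : ∀ n, (gam (FreeGroup α) n).Normal := fun n => gam_normal _ n
  have hKn : K.Normal := by
    have := gn (2 * d)
    exact Subgroup.normal_inf_normal _ _
  -- the functional
  let L : AW α ℤ →+ ZMod q :=
    { toFun := fun z => la (rd q z)
      map_zero' := by rw [map_zero]; exact map_zero la
      map_add' := fun x y => by rw [map_add]; exact map_add la _ _ }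
  let Ψ : FreeGroup α → ZMod q := fun x => ψ x + L (lp (2 * d) x)
  have hΨad : AdK K Ψ := by
    intro x hx y hy
    show ψ (x * y) + L (lp (2 * d) (x * y)) = ψ x + L (lp (2 * d) x) + (ψ y + L (lp (2 * d) y))
    rw [had x hx y hy, lp_mul hx.2 hy.2, map_add]
    abel
  have hΨt : ∀ x ∈ gam (FreeGroup α) (2 * d + 1), Ψ x = ψ x := by
    intro x hx
    show ψ x + L (lp (2 * d) x) = ψ x
    rw [lp_zero hx, map_zero, add_zero]
  have hΨbot : ∀ x ∈ K ⊓ gam (FreeGroup α) (2 * d + 2), Ψ x = 0 := by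
    intro x hx
    rw [hΨt x (gam_anti (by omega) hx.2)]
    exact hbot x ⟨hx.1.1, hx.2⟩
  -- right normed commutators
  have E1 : ∀ k w, (k :: w).Perm D0 → Ψ ⁅FreeGroup.of k, rnl w⁆ = -Ff k (ev (rnl w)) := by
    intro k w hp
    have hl : (k :: w).length = 2 * d + 1 := by rw [hp.length_eq, hDl]
    have hw : w ≠ [] := fun h => by rw [h, List.length_singleton] at hl; omega
    have h5 : lp (2 * d) ⁅FreeGroup.of k, rnl w⁆ = (br (k :: w) : List α → ℤ) := by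
      rw [← rnl_cons k hw]
      exact lp_rnl (by simp) hl
    show ψ _ + la (rd q (lp (2 * d) ⁅FreeGroup.of k, rnl w⁆)) = _
    rw [h5, rd_br]
    have h6 := hch k w hp
    rw [hla k w hp] at h6
    have h7 : la (br (k :: w)) = -(Ff k (ev (rnl w)) + ψ ⁅FreeGroup.of k, rnl w⁆) := by rw [← h6, neg_neg]
    rw [h7]
    abel
  -- the root `r`
  have hsub : {a | a ∈ D0} = {r} ∪ {a | a ∈ W ++ W'} := by
    ext a
    rw [hD0]
    simp
  have hcK : ∀ Y ∈ KF {a | a ∈ W ++ W'} ⊓ gam (FreeGroup α) (2 * d - 1), ⁅FreeGroup.of r, Y⁆ ∈ K := by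
    intro Y hY
    refine ⟨?_, ?_⟩
    · rw [hsub]
      exact kf_comm (kf_of r) hY.1
    · have := comm_mem (⟨_, mem0 (FreeGroup.of r)⟩ : gam (FreeGroup α) 0) ⟨Y, hY.2⟩
      rwa [show 0 + (2 * d - 1) + 1 = 2 * d by omega] at this
  have radd : ∀ Y ∈ KF {a | a ∈ W ++ W'} ⊓ gam (FreeGroup α) (2 * d - 1),
      ∀ Z ∈ KF {a | a ∈ W ++ W'} ⊓ gam (FreeGroup α) (2 * d - 1),
      Ψ ⁅FreeGroup.of r, Y * Z⁆ = Ψ ⁅FreeGroup.of r, Y⁆ + Ψ ⁅FreeGroup.of r, Z⁆ := by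
    intro Y hY Z hZ
    have e : ⁅FreeGroup.of r, Y * Z⁆ = ⁅FreeGroup.of r, Y⁆ * (⁅Y, ⁅FreeGroup.of r, Z⁆⁆ * ⁅FreeGroup.of r, Z⁆) := by
      simp only [commutatorElement_def]
      group
    have m1 := hcK Y hY
    have m2 := hcK Z hZ
    have m3 : ⁅Y, ⁅FreeGroup.of r, Z⁆⁆ ∈ K := by
      rw [commutatorElement_def]
      exact mul_mem (hKn.conj_mem _ m2 Y) (inv_mem m2)
    have m4 : ⁅Y, ⁅FreeGroup.of r, Z⁆⁆ ∈ gam (FreeGroup α) (2 * d + 2) := by
      have := comm_mem (⟨Y, hY.2⟩ : gam (FreeGroup α) (2 * d - 1)) ⟨_, m2.2⟩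
      exact gam_anti (by omega) this
    rw [e, hΨad _ m1 _ (mul_mem m3 m2), hΨad _ m3 _ m2, hΨbot _ ⟨m3, m4⟩, zero_add]
  let E : Subgroup (FreeGroup α) :=
    { carrier := {Y | Y ∈ KF {a | a ∈ W ++ W'} ⊓ gam (FreeGroup α) (2 * d - 1) ∧ Ψ ⁅FreeGroup.of r, Y⁆ = -Ff r (ev Y)}
      mul_mem' := by
        rintro Y Z ⟨hY, h5⟩ ⟨hZ, h6⟩
        refine ⟨mul_mem hY hZ, ?_⟩
        rw [radd Y hY Z hZ, h5, h6, map_mul, hFa _ (gam_map ev _ hY.2) _ (gam_map ev _ hZ.2)]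
        abel
      one_mem' := by
        refine ⟨one_mem _, ?_⟩
        have h5 := hFa 1 (one_mem _) 1 (one_mem _)
        rw [mul_one] at h5
        rw [commutatorElement_one_right, hΨad.one, map_one, left_eq_add.1 h5, neg_zero]
      inv_mem' := by
        rintro Y ⟨hY, h5⟩
        refine ⟨inv_mem hY, ?_⟩
        have h6 := radd Y hY Y⁻¹ (inv_mem hY)
        have h7 := hFa _ (gam_map ev _ hY.2) _ (gam_map ev _ (Subgroup.inv_mem _ hY.2))
        have h8 := hFa 1 (one_mem _) 1 (one_mem _)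
        rw [mul_one] at h8
        have h9 := left_eq_add.1 h8
        rw [mul_inv_cancel, commutatorElement_one_right, hΨad.one] at h6
        rw [← map_mul, mul_inv_cancel, map_one, h9] at h7
        rw [h5] at h6
        have h10 : Ψ ⁅FreeGroup.of r, Y⁻¹⁆ = Ff r (ev Y) := by
          have : (0 : ZMod q) + Ff r (ev Y) = -Ff r (ev Y) + Ψ ⁅FreeGroup.of r, Y⁻¹⁆ + Ff r (ev Y) := by rw [← h6]
          rw [zero_add] at this
          rw [this]
          abel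
        rw [h10]
        exact eq_neg_of_add_eq_zero_left h7.symm }
  have E3 : ∀ g ∈ KF {a | a ∈ W ++ W'} ⊓ gam (FreeGroup α) (2 * d - 1), lp (2 * d - 1) g ∈ Bs (W ++ W') →
      Ψ ⁅FreeGroup.of r, g⁆ = -Ff r (ev g) := by
    intro g hg hb
    have hl : (W ++ W').length = (2 * d - 1) + 1 := by rw [List.length_append, hW, hWl]; omega
    obtain ⟨g', hg', h, hh, rfl⟩ := dec hl hg.2 hg.1 hb
    have h5 : RNs (W ++ W') ≤ E := by
      rw [RNs, Subgroup.closure_le]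
      rintro x ⟨w, hw, rfl⟩
      have hwl : w.length = (2 * d - 1) + 1 := by rw [hw.length_eq, hl]
      have hwn : w ≠ [] := fun h => by rw [h, List.length_nil] at hwl; omega
      refine ⟨⟨kf_mono (fun a ha => (hw.mem_iff).2 ha) (rnl_kf w), rnl_mem hwn hwl⟩, E1 r w ?_⟩
      rw [hD0]
      exact hw.cons r
    have h6 : h ∈ E := by
      refine ⟨⟨hh.1, gam_anti (by omega) hh.2⟩, ?_⟩
      have h7 : h ∈ gam (FreeGroup α) (2 * d) := gam_anti (by omega) hh.2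
      rw [hΨt, hF1 h ⟨hh.1, h7⟩]
      have := comm_mem (⟨_, mem0 (FreeGroup.of r)⟩ : gam (FreeGroup α) 0) ⟨h, h7⟩
      exact gam_anti (by omega) this
    exact (E.mul_mem (h5 hg') h6).2
  -- invariance
  have hperm : (D0.map σ).Perm D0 := by
    have e : W'.map σ = W := by
      rw [hW', List.map_map]
      conv_rhs => rw [← List.map_id W]
      exact List.map_congr_left fun a _ => σσ a
    rw [hD0, List.map_cons, List.map_append, σr, e]
    exact List.Perm.cons r List.perm_append_comm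
  have hσD : ∀ a, a ∈ D0 → σ a ∈ D0 := fun a ha => (hperm.mem_iff).1 (List.mem_map_of_mem ha)
  have hσK : ∀ x ∈ K, FreeGroup.map σ x ∈ K := fun x hx =>
    ⟨kf_map σσ hσD hx.1, gam_map _ _ hx.2⟩
  have hevσ : ∀ x, ev (FreeGroup.map σ x) = ev x := by
    intro x
    have : ev.comp (FreeGroup.map σ) = ev := by
      ext a
      simp only [MonoidHom.comp_apply, FreeGroup.map.of, hev]
    exact DFunLike.congr_fun this x
  let E' : Subgroup (FreeGroup α) :=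
    { carrier := {x | x ∈ K ∧ Ψ (FreeGroup.map σ x) = Ψ x}
      mul_mem' := by
        rintro x y ⟨hx, h5⟩ ⟨hy, h6⟩
        refine ⟨mul_mem hx hy, ?_⟩
        rw [map_mul, hΨad _ (hσK x hx) _ (hσK y hy), hΨad x hx y hy, h5, h6]
      one_mem' := by
        refine ⟨one_mem _, ?_⟩
        rw [map_one]
      inv_mem' := by
        rintro x ⟨hx, h5⟩
        refine ⟨inv_mem hx, ?_⟩
        rw [map_inv, hΨad.inv (hσK x hx), hΨad.inv hx, h5] }
  have hX : ∀ g ∈ K, lp (2 * d) g ∈ Bs D0 → Ψ (FreeGroup.map σ g) = Ψ g := by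
    intro g hg hb
    obtain ⟨g', hg', h, hh, rfl⟩ := dec hDl hg.2 hg.1 hb
    have h5 : RNs D0 ≤ E' := by
      rw [RNs, Subgroup.closure_le]
      rintro x ⟨w, hw, rfl⟩
      have hwl : w.length = 2 * d + 1 := by rw [hw.length_eq, hDl]
      have hwn : w ≠ [] := fun h => by rw [h, List.length_nil] at hwl; omega
      refine ⟨⟨kf_mono (fun a ha => (hw.mem_iff).2 ha) (rnl_kf w), rnl_mem hwn hwl⟩, ?_⟩
      rw [rnl_map]
      cases w with
      | nil => exact absurd rfl hwn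
      | cons k w =>
        have hw2 : w ≠ [] := fun h => by rw [h, List.length_singleton] at hwl; omega
        have hw3 : (σ k :: w.map σ).Perm D0 := by
          have := (hw.map σ).trans hperm
          rwa [List.map_cons] at this
        rw [List.map_cons, rnl_cons (σ k) (by simpa using hw2), rnl_cons k hw2, E1 _ _ hw3, E1 _ _ hw, hFs,
          ← rnl_map, hevσ]
    have h6 : h ∈ E' := by
      refine ⟨⟨hh.1, gam_anti (by omega) hh.2⟩, ?_⟩
      rw [hΨt _ hh.2, hΨt _ (gam_map _ _ hh.2)]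
      exact htop h hh
    exact (E'.mul_mem (h5 hg') h6).2
  -- the elements
  have gx : rnl W ∈ gam (FreeGroup α) (d - 1) := rnl_mem hWn (by omega)
  have gy : rnl W' ∈ gam (FreeGroup α) (d - 1) := rnl_mem hWn' (by omega)
  have ga := mem0 (FreeGroup.of r)
  have kx := rnl_kf W
  have ky := rnl_kf W'
  have ka := kf_of r
  have gu : ⁅FreeGroup.of r, rnl W⁆ ∈ gam (FreeGroup α) d := by
    have := comm_mem (⟨_, ga⟩ : gam (FreeGroup α) 0) ⟨_, gx⟩
    rwa [show 0 + (d - 1) + 1 = d by omega] at this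
  have gv : ⁅FreeGroup.of r, rnl W'⁆ ∈ gam (FreeGroup α) d := by
    have := comm_mem (⟨_, ga⟩ : gam (FreeGroup α) 0) ⟨_, gy⟩
    rwa [show 0 + (d - 1) + 1 = d by omega] at this
  have gt : ⁅rnl W, rnl W'⁆ ∈ gam (FreeGroup α) (2 * d - 1) := by
    have := comm_mem (⟨_, gx⟩ : gam (FreeGroup α) (d - 1)) ⟨_, gy⟩
    rwa [show (d - 1) + (d - 1) + 1 = 2 * d - 1 by omega] at this
  have kt : ⁅rnl W, rnl W'⁆ ∈ KF {a | a ∈ W ++ W'} := by
    refine kf_mono (fun a ha => ?_) (kf_comm kx ky)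
    rcases List.mem_append.1 ha with h | h
    · exact Or.inl h
    · exact Or.inr h
  have ku := kf_comm ka kx
  have kv := kf_comm ka ky
  have hKm : ∀ {i j : ℕ} {g h : FreeGroup α} {D D' : Set α}, g ∈ gam (FreeGroup α) i → h ∈ gam (FreeGroup α) j →
      g ∈ KF D → h ∈ KF D' → 2 * d ≤ i + j + 1 → (∀ a ∈ D0, a ∈ D ∪ D') → ⁅g, h⁆ ∈ K := by
    intro i j g h D D' hg hh hg' hh' hij hD
    exact ⟨kf_mono (fun a ha => hD a ha) (kf_comm hg' hh'), gam_anti hij (comm_mem ⟨g, hg⟩ ⟨h, hh⟩)⟩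
  have hDm : ∀ a ∈ D0, a = r ∨ a ∈ W ∨ a ∈ W' := by
    intro a ha
    rw [hD0] at ha
    rcases List.mem_cons.1 ha with h | h
    · exact Or.inl h
    · exact Or.inr (List.mem_append.1 h)
  have k1 : ⁅rnl W, ⁅FreeGroup.of r, rnl W'⁆⁆ ∈ K := by
    refine hKm gx gv kx kv (by omega) fun a ha => ?_
    rcases hDm a ha with h | h | h
    · exact Or.inr (Or.inl h)
    · exact Or.inl h
    · exact Or.inr (Or.inr h)
  have k2 : ⁅⁅FreeGroup.of r, rnl W⁆, ⁅rnl W, rnl W'⁆⁆ ∈ K := by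
    refine hKm gu gt ku kt (by omega) fun a ha => ?_
    rcases hDm a ha with h | h | h
    · exact Or.inl (Or.inl h)
    · exact Or.inl (Or.inr h)
    · exact Or.inr (List.mem_append.2 (Or.inr h))
  have k3 : ⁅⁅FreeGroup.of r, rnl W⁆, rnl W'⁆ ∈ K := by
    refine hKm gu gy ku ky (by omega) fun a ha => ?_
    rcases hDm a ha with h | h | h
    · exact Or.inl (Or.inl h)
    · exact Or.inl (Or.inr h)
    · exact Or.inr h
  have k4 : ⁅⁅FreeGroup.of r, rnl W'⁆, ⁅rnl W, rnl W'⁆⁆ ∈ K := by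
    refine hKm gv gt kv kt (by omega) fun a ha => ?_
    rcases hDm a ha with h | h | h
    · exact Or.inl (Or.inl h)
    · exact Or.inr (List.mem_append.2 (Or.inl h))
    · exact Or.inl (Or.inr h)
  have k5 : ⁅⁅FreeGroup.of r, rnl W⁆, ⁅FreeGroup.of r, rnl W'⁆⁆ ∈ K := by
    refine hKm gu gv ku kv (by omega) fun a ha => ?_
    rcases hDm a ha with h | h | h
    · exact Or.inl (Or.inl h)
    · exact Or.inl (Or.inr h)
    · exact Or.inr (Or.inr h)
  have hroot : Ψ ⁅FreeGroup.of r, ⁅rnl W, rnl W'⁆⁆ = 0 := by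
    rw [E3 _ ⟨kt, gt⟩ ?_]
    · have e1 : ev ⁅rnl W, rnl W'⁆ = 1 := by
        rw [map_commutatorElement, hW', ← rnl_map, hevσ, commutatorElement_self]
      have h5 := hFa 1 (one_mem _) 1 (one_mem _)
      rw [mul_one] at h5
      rw [e1, left_eq_add.1 h5, neg_zero]
    · have h5 := lp_comm gx gy
      rw [show (d - 1) + (d - 1) + 1 = 2 * d - 1 by omega, lp_rnl hWn (by omega), lp_rnl hWn' (by omega)] at h5
      rw [h5]
      exact brbr hWn hWn'
  have hinv : Ψ ⁅⁅FreeGroup.of r, rnl W'⁆, rnl W⁆ = Ψ ⁅⁅FreeGroup.of r, rnl W⁆, rnl W'⁆ := by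
    have e : W'.map σ = W := by
      rw [hW', List.map_map]
      conv_rhs => rw [← List.map_id W]
      exact List.map_congr_left fun a _ => σσ a
    have h5 := hX _ k3 (by
      have h6 := lp_comm gu gy
      rw [show d + (d - 1) + 1 = 2 * d by omega, ← rnl_cons r hWn, lp_rnl (w := r :: W) (by simp) (by simp [hW]),
        lp_rnl hWn' (by omega)] at h6
      rw [← rnl_cons r hWn, h6, hD0, ← List.cons_append]
      exact brbr (by simp) hWn')
    rw [map_commutatorElement, map_commutatorElement, rnl_map, rnl_map, e, FreeGroup.map.of, σr] at h5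
    exact h5
  have hg2 : ∀ {g h : FreeGroup α}, g ∈ gam (FreeGroup α) d → h ∈ gam (FreeGroup α) (2 * d - 1) → Ψ ⁅g, h⁆ = ψ ⁅g, h⁆ := by
    intro g h hg hh
    refine hΨt _ (gam_anti ?_ (comm_mem (⟨g, hg⟩ : gam (FreeGroup α) d) ⟨h, hh⟩))
    omega
  have hmain := bad_zero' (f := fF α) (K := K) (ψ := Ψ) fil_fF hΨad hd (fun x hx => hΨbot x hx) (a := FreeGroup.of r)
    (x := rnl W) (y := rnl W') (mem0 _) gx gy hinv k1 k2 k3 k4 k5 hroot
    (by rw [hg2 gu gt]; exact h2) (by rw [hg2 gv gt]; exact h4)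
  rwa [hΨt _ (by
    have := comm_mem (⟨_, gu⟩ : gam (FreeGroup α) d) ⟨_, gv⟩
    exact gam_anti (by omega) this)] at hmain

end H57.OW
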