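import Pool.Agent.H57.OW.Hw3

/-!
# [H57 OW NLK] MP_b39724_nt, THEOREM OW, S5: a bad family is linked, abstract form (think 1835)

`ψ` additive on the normal subgroup `K`, `0` on `K ⊓ f (2 d + 3)`; `σ` an endomorphism (the exchange of the own letters). `K` is generated by the `⁅z i, Y⁆`, `Y ∈ Kr i`, and
`K ⊓ f (2 d + 2)`.
* `sw_inv`: if `ψ ⁅z i, Y⁆ = Ff i Y` with `Ff (sw i) (σ Y) = Ff i Y` and `ψ ∘ σ = ψ` on `K ⊓ f (2 d + 2)` then `ψ ∘ σ = ψ` on `K`.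
* `bad_zero`: if `ψ ∘ σ = ψ` on `K`, `σ a = a`, `y = σ x`, `x = σ y`, `ψ = 0` at `⁅a, ⁅x, y⁆⁆`, `⁅⁅a, x⁆, ⁅x, y⁆⁆`, `⁅⁅a, y⁆, ⁅x, y⁆⁆` then `ψ ⁅⁅a, x⁆, ⁅a, y⁆⁆ = 0`.
-/

set_option autoImplicit false

open scoped commutatorElement

noncomputable section

namespace H57.OW

variable {G : Type} [Group G] {A : Type} [AddCommGroup A] {K : Subgroup G}

/-- additive on `K` -/
def AdK (K : Subgroup G) (ψ : G → A) : Prop := ∀ x ∈ K, ∀ y ∈ K, ψ (x * y) = ψ x + ψ y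

theorem AdK.one {ψ : G → A} (h : AdK K ψ) : ψ 1 = 0 := by
  have h1 := h 1 (one_mem _) 1 (one_mem _)
  rw [mul_one] at h1
  exact left_eq_add.1 h1

theorem AdK.inv {ψ : G → A} (h : AdK K ψ) {x : G} (hx : x ∈ K) : ψ x⁻¹ = -ψ x := by
  have h1 := h x hx x⁻¹ (inv_mem hx)
  rw [mul_inv_cancel, h.one] at h1
  exact (neg_eq_of_add_eq_zero_right h1.symm).symm

theorem AdK.eqm {ψ : G → A} (h : AdK K ψ) {F : Subgroup G} (h0 : ∀ x ∈ K ⊓ F, ψ x = 0) {x y : G} (hy : y ∈ K)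
    (he : Eqm K F x y) : ψ x = ψ y := by
  have h1 : x = x * y⁻¹ * y := by group
  rw [h1, h _ he.1 y hy, h0 _ he, zero_add]

/-- invariance under the exchange -/
theorem sw_inv {ι : Type} {ψ : G → A} (had : AdK K ψ) {F : Subgroup G} {σ : G →* G} (hσ : ∀ x ∈ K, σ x ∈ K) {z : ι → G}
    {Kr : ι → Subgroup G} {sw : ι → ι} {Ff : ι → G → A}
    (hK : ∀ x ∈ K, x ∈ Subgroup.closure ({x | ∃ i, ∃ Y ∈ Kr i, x = ⁅z i, Y⁆} ∪ (↑(K ⊓ F) : Set G)))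
    (hmem : ∀ i, ∀ Y ∈ Kr i, ⁅z i, Y⁆ ∈ K) (htop : ∀ x ∈ K ⊓ F, ψ (σ x) = ψ x)
    (hroot : ∀ i, ∀ Y ∈ Kr i, ψ ⁅z i, Y⁆ = Ff i Y) (hz : ∀ i, σ (z i) = z (sw i))
    (hKr : ∀ i, ∀ Y ∈ Kr i, σ Y ∈ Kr (sw i)) (hF : ∀ i, ∀ Y ∈ Kr i, Ff (sw i) (σ Y) = Ff i Y) :
    ∀ x ∈ K, ψ (σ x) = ψ x := by
  let E : Subgroup G :=
    { carrier := {x | x ∈ K ∧ ψ (σ x) = ψ x}
      mul_mem' := by
        rintro x y ⟨hx, h1⟩ ⟨hy, h2⟩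
        refine ⟨mul_mem hx hy, ?_⟩
        rw [map_mul, had _ (hσ x hx) _ (hσ y hy), had x hx y hy, h1, h2]
      one_mem' := by
        refine ⟨one_mem _, ?_⟩
        rw [map_one]
      inv_mem' := by
        rintro x ⟨hx, h1⟩
        refine ⟨inv_mem hx, ?_⟩
        rw [map_inv, had.inv (hσ x hx), had.inv hx, h1] }
  intro x hx
  have hle : Subgroup.closure ({x | ∃ i, ∃ Y ∈ Kr i, x = ⁅z i, Y⁆} ∪ (↑(K ⊓ F) : Set G)) ≤ E := by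
    rw [Subgroup.closure_le]
    rintro w (⟨i, Y, hY, rfl⟩ | hw)
    · refine ⟨hmem i Y hY, ?_⟩
      rw [map_commutatorElement, hz, hroot _ _ (hKr i Y hY), hF i Y hY, hroot i Y hY]
    · exact ⟨hw.1, htop w hw⟩
  exact (hle (hK x hx)).2

/-- the value of the bad element is `0` -/
theorem bad_zero {f : ℕ → Subgroup G} (hf : Fil f) [K.Normal] {ψ : G → A} (had : AdK K ψ) {d : ℕ} (hd : 1 ≤ d)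
    (hbot : ∀ x ∈ K ⊓ f (2 * d + 3), ψ x = 0) {σ : G →* G} (hinv : ∀ x ∈ K, ψ (σ x) = ψ x) {a x y : G}
    (ha : a ∈ f 1) (hx : x ∈ f d) (hy : y ∈ f d) (σa : σ a = a) (σx : σ x = y) (σy : σ y = x)
    (k1 : ⁅x, ⁅a, y⁆⁆ ∈ K) (k2 : ⁅⁅a, x⁆, ⁅x, y⁆⁆ ∈ K) (k3 : ⁅⁅a, x⁆, y⁆ ∈ K) (k4 : ⁅⁅a, y⁆, ⁅x, y⁆⁆ ∈ K)
    (k5 : ⁅⁅a, x⁆, ⁅a, y⁆⁆ ∈ K) (h1 : ψ ⁅a, ⁅x, y⁆⁆ = 0) (h2 : ψ ⁅⁅a, x⁆, ⁅x, y⁆⁆ = 0)
    (h4 : ψ ⁅⁅a, y⁆, ⁅x, y⁆⁆ = 0) : ψ ⁅⁅a, x⁆, ⁅a, y⁆⁆ = 0 := by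
  have he := hw3 hf hd ha hx hy k1 k2 k3
  have m1 := mul_mem k1 k5
  have m2 := mul_mem m1 k2
  have m3 := mul_mem m2 k4
  have m4 := mul_mem m3 k3
  have h5 := had.eqm hbot m4 he
  rw [had _ m3 _ k3, had _ m2 _ k4, had _ m1 _ k2, had _ k1 _ k5, h1, h2, h4, add_zero, add_zero] at h5
  have h6 : ψ ⁅⁅a, x⁆, y⁆ = -ψ ⁅x, ⁅a, y⁆⁆ := by
    rw [← hinv _ k3, map_commutatorElement, map_commutatorElement, σa, σx, σy, ← commutatorElement_inv, had.inv k1]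
  rw [h6] at h5
  have h7 : ψ ⁅x, ⁅a, y⁆⁆ + ψ ⁅⁅a, x⁆, ⁅a, y⁆⁆ + -ψ ⁅x, ⁅a, y⁆⁆ = ψ ⁅⁅a, x⁆, ⁅a, y⁆⁆ := by abel
  rw [h7] at h5
  exact h5.symm

end H57.OW
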