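import Pool.Agent.H57.OW.Ful

/-!
# [H57 OW NULK] MP_b39724_nt, THEOREM OW, S5: a tuple with equal types in pairs is linked for a bad functional

`e ≥ 1`, `2 e + 1 = M` own indices, `σ` an involution of them with the fixed point `r`, `r :: (W ++ W.map σ)` all indices. Labels `a k` with `a (σ k) = a k`. `ψ` on the group with own
letters: additive on `Kk univ ⊓ gm M`, `0` on `gm (M + 2)`, `ψ ⁅u, v⁆ = - B (ev u, ev v)`. `Th k` the functional of the root `k`:
`Th k (Y) = Ff k (ev Y) + ψ ⁅y k, Y⁆` for `Y ∈ Kk {k}ᶜ`, with `Ff (σ k) = Ff k`.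
* `nulk`: if `B u u ≠ 0` for `u = rn (a r, a W)` then the tuple is not unlinked.
-/

set_option autoImplicit false

open scoped commutatorElement Classical

noncomputable section

namespace H57.OW

open H62.BL H82.S3 H88.S3 Pool.Agent.H61.Tu H12.OW H1.S3

open H73.S3 (gm Gr gk Du SP il gk_zero gk_one Ulk gm_normal)

theorem map_rn {G H : Type} [Group G] [Group H] (f : G →* H) (w : List G) : f (H62.BL.rn w) = H62.BL.rn (w.map f) := by
  induction w with
  | nil => exact map_one f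
  | cons a w ih =>
    cases w with
    | nil => rfl
    | cons b w =>
      show f (a * H62.BL.rn (b :: w) * a⁻¹ * (H62.BL.rn (b :: w))⁻¹) = _
      rw [map_mul, map_mul, map_mul, map_inv, map_inv, ih]
      rfl

theorem nulk {P P' A Be : Type} [Group P] [Group P'] [MulAction P A] [MulAction P' Be] {e : ℕ} (he : 1 ≤ e)
    (O : OwL P P' A Be (Fin (2 * e + 1))) (Pa : Par) {q : ℕ} [NeZero q] (a : Fin (2 * e + 1) → A)
    (r : Fin (2 * e + 1)) (W : List (Fin (2 * e + 1))) (hW : W.length = e) {σ : Fin (2 * e + 1) → Fin (2 * e + 1)}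
    (σr : σ r = r) (σσ : ∀ k, σ (σ k) = k) (haσ : ∀ k, a (σ k) = a k)
    (hD : (r :: (W ++ W.map σ)).Perm (List.finRange (2 * e + 1)))
    (B : ∀ i j : ℕ, Gr (Sp Pa A) i →+ Gr (Sp Pa A) j →+ ZMod q) (ψ : Sp Pa Be → ZMod q)
    (h1 : ∀ u ∈ O.Kk Pa Finset.univ, u ∈ gm (Sp Pa Be) (2 * e + 1) → ∀ v ∈ O.Kk Pa Finset.univ,
      v ∈ gm (Sp Pa Be) (2 * e + 1) → ψ (u * v) = ψ u + ψ v)
    (h0 : ∀ u ∈ O.Kk Pa Finset.univ, u ∈ gm (Sp Pa Be) (2 * e + 3) → ψ u = 0)
    (hB : ∀ (i j : ℕ) (J J' : Finset (Fin (2 * e + 1))), i + j = 2 * e + 2 → 1 ≤ i → 1 ≤ j → J ∪ J' = Finset.univ →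
      ∀ u ∈ O.Kk Pa J, u ∈ gm (Sp Pa Be) i → ∀ v ∈ O.Kk Pa J', v ∈ gm (Sp Pa Be) j →
        ψ ⁅u, v⁆ = -B i j (gk i (O.ev Pa u)) (gk j (O.ev Pa v)))
    (Th : Fin (2 * e + 1) → Du (Sp Pa Be) q (2 * e)) (Ff : Fin (2 * e + 1) → Sp Pa A → ZMod q)
    (hFσ : ∀ k, Ff (σ k) = Ff k)
    (hFa : ∀ x ∈ gm (Sp Pa A) (2 * e), ∀ y ∈ gm (Sp Pa A) (2 * e), Ff r (x * y) = Ff r x + Ff r y)
    (hTh : ∀ k, ∀ Y ∈ O.Kk Pa {k}ᶜ, Y ∈ gm (Sp Pa Be) (2 * e) →
      (Th k).ap (gk (2 * e) Y) = Ff k (O.ev Pa Y) + ψ ⁅sy Pa (O.pk (a k) (some k)), Y⁆)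
    (Q : Subgroup (Sd P' (Du (Sp Pa Be) q (2 * e + 1))))
    (hbad : B (e + 1) (e + 1) (gk (e + 1) (H62.BL.rn ((r :: W).map fun k => sy Pa (a k))))
      (gk (e + 1) (H62.BL.rn ((r :: W).map fun k => sy Pa (a k)))) ≠ 0) :
    ¬Ulk Q (fun k => sy Pa (O.pk (a k) (some k))) Th := by
  rintro ⟨lam, hlam, -⟩
  apply hbad
  let ι : FreeGroup (Fin (2 * e + 1)) →* Sp Pa Be := FreeGroup.lift fun k => sy Pa (O.pk (a k) (some k))
  have hι : ∀ k, ι (FreeGroup.of k) = sy Pa (O.pk (a k) (some k)) := fun k => FreeGroup.lift_apply_of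
  set D0 : List (Fin (2 * e + 1)) := r :: (W ++ W.map σ) with hD0
  have hall : ∀ k, k ∈ D0 := fun k => (hD.mem_iff).2 (List.mem_finRange k)
  -- kills
  have hki : ∀ i g, O.ki Pa i (ι g) = ι (kil i g) := by
    intro i g
    have : (O.ki Pa i).comp ι = ι.comp (kil i) := by
      ext k
      rw [MonoidHom.comp_apply, MonoidHom.comp_apply, hι, O.ki_sy, O.ow_pk, kil, FreeGroup.lift_apply_of]
      by_cases h : k = i
      · rw [if_neg (by simp [h]), if_pos h, map_one]
      · rw [if_pos (fun h' => h (Option.some.inj h')), if_neg h, hι]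
    exact DFunLike.congr_fun this g
  have hKk : ∀ (J : Finset (Fin (2 * e + 1))) (D : Set (Fin (2 * e + 1))) (g : FreeGroup (Fin (2 * e + 1))), g ∈ KF D →
      (∀ k ∈ J, k ∈ D) → ι g ∈ O.Kk Pa J := by
    intro J D g hg hJ i hi
    rw [hki, hg i (hJ i hi), map_one]
  have hgm : ∀ {n : ℕ} {g : FreeGroup (Fin (2 * e + 1))}, g ∈ gam (FreeGroup (Fin (2 * e + 1))) n → ι g ∈ gm (Sp Pa Be) (n + 1) :=
    fun hg => gam_map ι _ hg
  have hevσ : ∀ g, O.ev Pa (ι (FreeGroup.map σ g)) = O.ev Pa (ι g) := by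
    intro g
    have : ((O.ev Pa).comp ι).comp (FreeGroup.map σ) = (O.ev Pa).comp ι := by
      ext k
      rw [MonoidHom.comp_apply, MonoidHom.comp_apply, MonoidHom.comp_apply, FreeGroup.map.of, hι, hι, O.ev_sy, O.ev_sy,
        O.fs_pk, O.fs_pk, haσ]
    exact DFunLike.congr_fun this g
  -- the linear functional
  let Φ : Fin (2 * e + 1) → Fin (2 * e + 1) × Q := fun k => (k, 1)
  have hpu : ∀ (k : Fin (2 * e + 1)) (b : Fin (2 * e + 1) × Q), b.2 = 1 ∧ b.1 = k ↔ b = Φ k := by
    intro k b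
    constructor
    · rintro ⟨h, h'⟩
      exact Prod.ext h' h
    · rintro rfl
      exact ⟨rfl, rfl⟩
  let la : (List (Fin (2 * e + 1)) → ZMod q) →ₗ[ZMod q] ZMod q := lam.comp (pu (fun b => b.2 = 1) Prod.fst)
  have hla : ∀ w, la (br w) = lam (br (w.map Φ)) := by
    intro w
    show lam (pu _ Prod.fst (br w)) = _
    rw [pu_br hpu]
  have hl2 : ∀ k (w : List (Fin (2 * e + 1))), (k :: w).Perm D0 → (Th k).ap (gk (2 * e) (ι (rnl w))) = -la (br (k :: w)) := by
    intro k w hp
    have h2 : (k :: (w.map Φ).map Prod.fst).Perm (List.finRange (2 * e + 1)) := by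
      have : (w.map Φ).map Prod.fst = w := by
        rw [List.map_map]
        exact List.map_id w
      rw [this]
      exact hp.trans hD
    have h3 := hlam k (w.map Φ) h2
    rw [hla, List.map_cons]
    have h4 : ι (rnl w) = H62.BL.rn ((w.map Φ).map fun b => (b.2 : Sd P' (Du (Sp Pa Be) q (2 * e + 1))).x • sy Pa (O.pk (a b.1) (some b.1))) := by
      rw [rnl, map_rn, List.map_map, List.map_map]
      refine congrArg _ (List.map_congr_left fun k _ => ?_)
      show ι (FreeGroup.of k) = (((1 : Q) : Sd P' (Du (Sp Pa Be) q (2 * e + 1)))).x • sy Pa (O.pk (a k) (some k))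
      rw [hι]
      have : (((1 : Q) : Sd P' (Du (Sp Pa Be) q (2 * e + 1)))).x = 1 := rfl
      rw [this, one_smul]
    rw [h4]
    exact h3
  -- membership
  have gl : ∀ w : List (Fin (2 * e + 1)), w ≠ [] → ∀ n, w.length = n + 1 → ι (rnl w) ∈ gm (Sp Pa Be) (n + 1) :=
    fun w hw n hn => hgm (rnl_mem hw hn)
  have kl : ∀ w : List (Fin (2 * e + 1)), ι (rnl w) ∈ O.Kk Pa w.toFinset :=
    fun w => hKk _ _ _ (rnl_kf w) fun k hk => List.mem_toFinset.1 hk
  have hWn : W ≠ [] := fun h => by rw [h, List.length_nil] at hW; omega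
  have hWl' : (W.map σ).length = e := by rw [List.length_map, hW]
  have hWn' : W.map σ ≠ [] := fun h => by rw [h, List.length_nil] at hWl'; omega
  have hKall : ∀ g, g ∈ KF {k | k ∈ D0} → ι g ∈ O.Kk Pa Finset.univ :=
    fun g hg => hKk _ _ _ hg fun k _ => hall k
  -- symmetry in the top degree
  have htop : ∀ x ∈ KF {k | k ∈ D0} ⊓ gam (FreeGroup (Fin (2 * e + 1))) (2 * e + 1), ψ (ι (FreeGroup.map σ x)) = ψ (ι x) := by
    have hσK : ∀ x ∈ KF {k | k ∈ D0}, FreeGroup.map σ x ∈ KF {k | k ∈ D0} := fun x hx => kf_map σσ (fun k _ => hall _) hx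
    let E : Subgroup (FreeGroup (Fin (2 * e + 1))) :=
      { carrier := {x | x ∈ KF {k | k ∈ D0} ⊓ gam (FreeGroup (Fin (2 * e + 1))) (2 * e + 1) ∧ ψ (ι (FreeGroup.map σ x)) = ψ (ι x)}
        mul_mem' := by
          rintro x y ⟨hx, h5⟩ ⟨hy, h6⟩
          have gx : x ∈ gam (FreeGroup (Fin (2 * e + 1))) (2 * e) := gam_anti (by omega) hx.2
          have gy : y ∈ gam (FreeGroup (Fin (2 * e + 1))) (2 * e) := gam_anti (by omega) hy.2
          refine ⟨mul_mem hx hy, ?_⟩
          rw [map_mul, map_mul, map_mul, h1 _ (hKall _ (hσK _ hx.1)) (hgm (gam_map _ _ gx)) _ (hKall _ (hσK _ hy.1)) (hgm (gam_map _ _ gy)),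
            h1 _ (hKall _ hx.1) (hgm gx) _ (hKall _ hy.1) (hgm gy), h5, h6]
        one_mem' := by
          refine ⟨one_mem _, ?_⟩
          rw [map_one]
        inv_mem' := by
          rintro x ⟨hx, h5⟩
          have gx : x ∈ gam (FreeGroup (Fin (2 * e + 1))) (2 * e) := gam_anti (by omega) hx.2
          refine ⟨inv_mem hx, ?_⟩
          have h6 := h1 1 (one_mem _) (one_mem _) 1 (one_mem _) (one_mem _)
          rw [mul_one] at h6
          have h7 := left_eq_add.1 h6
          have h8 := h1 _ (hKall _ hx.1) (hgm gx) _ (inv_mem (hKall _ hx.1)) (inv_mem (hgm gx))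
          have h9 := h1 _ (hKall _ (hσK _ hx.1)) (hgm (gam_map _ _ gx)) _ (inv_mem (hKall _ (hσK _ hx.1))) (inv_mem (hgm (gam_map _ _ gx)))
          rw [mul_inv_cancel, h7] at h8 h9
          rw [map_inv, map_inv, map_inv, ← neg_eq_of_add_eq_zero_right h8.symm, ← neg_eq_of_add_eq_zero_right h9.symm, h5] }
    intro x hx
    have hxu : x ∈ KF {k | k ∈ (Finset.univ : Finset (Fin (2 * e + 1)))} := fun k _ => hx.1 k (hall k)
    obtain ⟨g', hg', h, hh, hxe⟩ := ful hx.2 hxu
    have h5 : RNf (2 * e + 1) (Finset.univ : Finset (Fin (2 * e + 1))) ≤ E := by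
      rw [RNf, Subgroup.closure_le]
      rintro x ⟨w, hw, hw2, rfl⟩
      have hwn : w ≠ [] := fun h => by rw [h, List.length_nil] at hw; omega
      refine ⟨⟨fun k _ => rnl_kf w k (hw2 k (Finset.mem_univ k)), rnl_mem hwn hw⟩, ?_⟩
      cases w with
      | nil => exact absurd rfl hwn
      | cons k w =>
        have hwl : w.length = 2 * e + 1 := by
          rw [List.length_cons] at hw
          omega
        have hw3 : w ≠ [] := fun h => by rw [h, List.length_nil] at hwl; omega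
        have hu : ({k} : Finset (Fin (2 * e + 1))) ∪ w.toFinset = Finset.univ := by
          ext j
          simp only [Finset.mem_union, Finset.mem_singleton, List.mem_toFinset, Finset.mem_univ, iff_true]
          exact List.mem_cons.1 (hw2 j (Finset.mem_univ j))
        have key : ∀ (k : Fin (2 * e + 1)) (w : List (Fin (2 * e + 1))), w.length = 2 * e + 1 → w ≠ [] →
            ({k} : Finset (Fin (2 * e + 1))) ∪ w.toFinset = Finset.univ →
            ψ (ι (rnl (k :: w))) = -B 1 (2 * e + 1) (gk 1 (O.ev Pa (ι (FreeGroup.of k)))) (gk (2 * e + 1) (O.ev Pa (ι (rnl w)))) := by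
          intro k w hwl hw3 hu
          rw [rnl_cons k hw3, map_commutatorElement]
          refine hB 1 (2 * e + 1) {k} w.toFinset (by omega) (by omega) (by omega) hu _ ?_ (Subgroup.mem_top _) _ (kl w) (gl w hw3 _ hwl)
          exact hKk _ _ _ (kf_of k) fun j hj => by simpa using hj
        have hu' : ({σ k} : Finset (Fin (2 * e + 1))) ∪ (w.map σ).toFinset = Finset.univ := by
          ext j
          simp only [Finset.mem_union, Finset.mem_singleton, List.mem_toFinset, Finset.mem_univ, iff_true, List.mem_map]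
          rcases List.mem_cons.1 (hw2 (σ j) (Finset.mem_univ _)) with h | h
          · left
            rw [← h, σσ]
          · right
            exact ⟨σ j, h, σσ j⟩
        rw [rnl_map, List.map_cons, key (σ k) (w.map σ) (by rw [List.length_map, hwl]) (by simpa using hw3) hu', key k w hwl hw3 hu,
          ← rnl_map, hevσ, hι, hι, O.ev_sy, O.ev_sy, O.fs_pk, O.fs_pk, haσ]
    have h6 : h ∈ E := by
      have h7 : h ∈ KF {k | k ∈ D0} := fun k _ => hh.1 k (Finset.mem_univ k)
      refine ⟨⟨h7, gam_anti (by omega) hh.2⟩, ?_⟩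
      rw [h0 _ (hKall _ h7) (hgm hh.2), h0 _ (hKall _ (hσK _ h7)) (hgm (gam_map _ _ hh.2))]
    rw [hxe]
    exact (E.mul_mem (h5 hg') h6).2
  -- elements
  have gx := rnl_mem hWn (n := e - 1) (by omega)
  have gy := rnl_mem hWn' (n := e - 1) (by omega)
  have gu : ∀ w : List (Fin (2 * e + 1)), w.length = e → w ≠ [] → ⁅FreeGroup.of r, rnl w⁆ ∈ gam (FreeGroup (Fin (2 * e + 1))) e := by
    intro w hw hwn
    rw [← rnl_cons r hwn]
    exact rnl_mem (by simp) (by rw [List.length_cons, hw])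
  have ku : ∀ w : List (Fin (2 * e + 1)), ⁅FreeGroup.of r, rnl w⁆ ∈ KF ({r} ∪ {k | k ∈ w}) := fun w => kf_comm (kf_of r) (rnl_kf w)
  have gt : ⁅rnl W, rnl (W.map σ)⁆ ∈ gam (FreeGroup (Fin (2 * e + 1))) (2 * e - 1) := by
    have := comm_mem (⟨_, gx⟩ : gam (FreeGroup (Fin (2 * e + 1))) (e - 1)) ⟨_, gy⟩
    rwa [show (e - 1) + (e - 1) + 1 = 2 * e - 1 by omega] at this
  have kt : ⁅rnl W, rnl (W.map σ)⁆ ∈ KF ({k | k ∈ W} ∪ {k | k ∈ W.map σ}) := kf_comm (rnl_kf W) (rnl_kf _)
  have hDm : ∀ k, k = r ∨ k ∈ W ∨ k ∈ W.map σ := by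
    intro k
    rcases List.mem_cons.1 (hall k) with h | h
    · exact Or.inl h
    · exact Or.inr (List.mem_append.1 h)
  have evt : O.ev Pa (ι ⁅rnl W, rnl (W.map σ)⁆) = 1 := by
    rw [map_commutatorElement, map_commutatorElement, ← rnl_map, hevσ, commutatorElement_self]
  have h24 : ∀ w : List (Fin (2 * e + 1)), w.length = e → w ≠ [] → (∀ k, k = r ∨ k ∈ w ∨ (k ∈ W ∨ k ∈ W.map σ)) →
      ψ (ι ⁅⁅FreeGroup.of r, rnl w⁆, ⁅rnl W, rnl (W.map σ)⁆⁆) = 0 := by
    intro w hw hwn hcov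
    have k5 : ι ⁅FreeGroup.of r, rnl w⁆ ∈ O.Kk Pa ({r} ∪ w.toFinset) :=
      hKk _ _ _ (ku w) fun k hk => by
        rcases Finset.mem_union.1 hk with h | h
        · exact Or.inl (by simpa using h)
        · exact Or.inr (List.mem_toFinset.1 h)
    have k6 : ι ⁅rnl W, rnl (W.map σ)⁆ ∈ O.Kk Pa (W.toFinset ∪ (W.map σ).toFinset) :=
      hKk _ _ _ kt fun k hk => by
        rcases Finset.mem_union.1 hk with h | h
        · exact Or.inl (List.mem_toFinset.1 h)
        · exact Or.inr (List.mem_toFinset.1 h)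
    have hu : ({r} ∪ w.toFinset) ∪ (W.toFinset ∪ (W.map σ).toFinset) = Finset.univ := by
      ext k
      simp only [Finset.mem_union, Finset.mem_singleton, List.mem_toFinset, Finset.mem_univ, iff_true]
      rcases hcov k with h | h | h
      · exact Or.inl (Or.inl h)
      · exact Or.inl (Or.inr h)
      · exact Or.inr h
    by_cases he1 : e = 1
    · rw [map_commutatorElement]
      have h5 := hB 2 2 _ _ (by omega) (by omega) (by omega) hu _ k5 (hgm (n := 1) (gam_anti (by omega) (gu w hw hwn)))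
        _ k6 (hgm (n := 1) (gam_anti (by omega) gt))
      rw [h5, evt, gk_one, map_zero, neg_zero]
    · refine h0 _ ?_ ?_
      · refine hKall _ ?_
        refine kf_mono (fun k _ => ?_) (kf_comm (ku w) kt)
        rcases hcov k with h | h | h | h
        · exact Or.inl (Or.inl h)
        · exact Or.inl (Or.inr h)
        · exact Or.inr (Or.inl h)
        · exact Or.inr (Or.inr h)
      · have := comm_mem (⟨_, gu w hw hwn⟩ : gam (FreeGroup (Fin (2 * e + 1))) e) ⟨_, gt⟩
        exact hgm (gam_anti (by omega) this)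
  have hres := lnk0 (T := Sp Pa A) (q := q) he r W hW σr σσ hD0 ((O.ev Pa).comp ι)
    (fun k => by rw [MonoidHom.comp_apply, MonoidHom.comp_apply, hι, hι, O.ev_sy, O.ev_sy, O.fs_pk, O.fs_pk, haσ])
    (fun g => ψ (ι g)) Ff la (fun k w => (Th k).ap (gk (2 * e) (ι (rnl w))))
    (fun x hx y hy => by
      show ψ (ι (x * y)) = ψ (ι x) + ψ (ι y)
      rw [map_mul]
      exact h1 _ (hKall _ hx.1) (hgm hx.2) _ (hKall _ hy.1) (hgm hy.2))
    (fun x hx => h0 _ (hKall _ hx.1) (hgm hx.2)) htop hFσ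
    (fun x hx y hy => hFa x (by rwa [show 2 * e - 1 = 2 * e - 1 from rfl] at hx) y hy)
    (fun h hh => by
      show ψ (ι ⁅FreeGroup.of r, h⁆) = -Ff r (O.ev Pa (ι h))
      have h5 := hTh r (ι h) (hKk _ _ _ hh.1 fun k hk => by
        have hkr : k ≠ r := by simpa using hk
        rcases hDm k with h | h | h
        · exact absurd h hkr
        · exact List.mem_append.2 (Or.inl h)
        · exact List.mem_append.2 (Or.inr h)) (by
        have := hgm hh.2
        exact gam_anti (by omega) this)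
      have h6 : gk (2 * e) (ι h) = 0 := (gk_zero (gam_anti (by omega) (hgm hh.2))).2 (hgm hh.2)
      rw [h6, map_zero, ← hι] at h5
      rw [map_commutatorElement]
      exact eq_neg_of_add_eq_zero_right h5.symm)
    (fun k w hp => by
      have hwl : (k :: w).length = 2 * e + 1 := by
        rw [(hp.trans hD).length_eq, List.length_finRange]
      have hwl' : w.length = 2 * e := by
        rw [List.length_cons] at hwl
        omega
      have hwn : w ≠ [] := fun h => by rw [h, List.length_nil] at hwl'; omega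
      have h5 := hTh k (ι (rnl w)) (hKk _ _ _ (rnl_kf w) fun j hj => by
        have hjk : j ≠ k := by simpa using hj
        rcases List.mem_cons.1 ((hp.mem_iff).2 (hall j)) with h | h
        · exact absurd h hjk
        · exact h) (by
        have := hgm (rnl_mem hwn (n := 2 * e - 1) (by omega))
        rwa [show 2 * e - 1 + 1 = 2 * e by omega] at this)
      show (Th k).ap (gk (2 * e) (ι (rnl w))) = Ff k (O.ev Pa (ι (rnl w))) + ψ (ι ⁅FreeGroup.of k, rnl w⁆)
      rw [h5, map_commutatorElement, hι])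
    hl2
    (h24 W hW hWn fun k => by
      rcases hDm k with h | h | h
      · exact Or.inl h
      · exact Or.inr (Or.inl h)
      · exact Or.inr (Or.inr (Or.inr h)))
    (h24 (W.map σ) hWl' hWn' fun k => by
      rcases hDm k with h | h | h
      · exact Or.inl h
      · exact Or.inr (Or.inr (Or.inl h))
      · exact Or.inr (Or.inl h))
  -- conclusion
  have hres2 : ψ ⁅ι ⁅FreeGroup.of r, rnl W⁆, ι ⁅FreeGroup.of r, rnl (W.map σ)⁆⁆ = 0 := by
    rw [← map_commutatorElement]
    exact hres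
  rw [hB (e + 1) (e + 1) ({r} ∪ W.toFinset) ({r} ∪ (W.map σ).toFinset) (by omega) (by omega) (by omega) (by
      ext k
      simp only [Finset.mem_union, Finset.mem_singleton, List.mem_toFinset, Finset.mem_univ, iff_true]
      rcases hDm k with h | h | h
      · exact Or.inl (Or.inl h)
      · exact Or.inl (Or.inr h)
      · exact Or.inr (Or.inr h)) _ (hKk _ _ _ (ku W) fun k hk => by
        rcases Finset.mem_union.1 hk with h | h
        · exact Or.inl (by simpa using h)
        · exact Or.inr (List.mem_toFinset.1 h)) (hgm (gu W hW hWn)) _ (hKk _ _ _ (ku _) fun k hk => by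
        rcases Finset.mem_union.1 hk with h | h
        · exact Or.inl (by simpa using h)
        · exact Or.inr (List.mem_toFinset.1 h)) (hgm (gu _ hWl' hWn')), neg_eq_zero] at hres2
  have e1 : O.ev Pa (ι ⁅FreeGroup.of r, rnl W⁆) = H62.BL.rn ((r :: W).map fun k => sy Pa (a k)) := by
    rw [← rnl_cons r hWn, rnl, map_rn, map_rn, List.map_map, List.map_map]
    refine congrArg _ (List.map_congr_left fun k _ => ?_)
    show O.ev Pa (ι (FreeGroup.of k)) = _
    rw [hι, O.ev_sy, O.fs_pk]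
  have e2 : O.ev Pa (ι ⁅FreeGroup.of r, rnl (W.map σ)⁆) = O.ev Pa (ι ⁅FreeGroup.of r, rnl W⁆) := by
    have := hevσ ⁅FreeGroup.of r, rnl W⁆
    rwa [map_commutatorElement, FreeGroup.map.of, σr, rnl_map] at this
  rw [e2, e1] at hres2
  exact hres2

end H57.OW
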