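import Pool.Agent.H57.OW.Rtf
import Pool.Agent.H97.OW.Def
import Pool.Agent.H24.OW.Pha
import Pool.Agent.H73.S3.Adf

/-!
# [H57 OW OLK] MP_b39724_nt, THEOREM OW, b8: own letters with fine types equal in pairs are not unlinked

Abstract frame of H97/OW/Def, `d = 2 e`, `e ≥ 1`: own letters `t (r i) = il (sy (O.pk (a i) (some i)))`, `σ` an involution of the own indices with the fixed point `i0`,
`i0 :: (W ++ W.map σ)` all of them, the letters and the fine types of `i` and `σ i` are equal, `η` the one layer family of the compensated function (`Eta`).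
* `olk`: if `Bf` is not `0` at `(u, u)`, `u = rn (i0 :: W)` then the functionals `(η (r i)).1` are not unlinked, for every `Q`.
-/

set_option autoImplicit false

open scoped commutatorElement Classical

noncomputable section

namespace H57.OW

open H62.BL H82.S3 H88.S3 Pool.Agent.H61.Tu H12.OW H1.S3 H73.OW H97.OW

open H73.S3 (gm Gr gk Du SP il cj gk_zero gk_one gk_mul gk_inv gk_conj Ulk gm_normal br br_gk gm_comm gm_comm' gm_anti
  AD)

section pfx

variable {P P' A Be : Type} [Group P] [Group P'] [MulAction P A] [MulAction P' Be] {M : ℕ}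
  (O : OwL P P' A Be (Fin M)) (Pa : Par) {J V : Type}

theorem cj_lf {S P : Type} [Group S] [Group P] [MulDistribMulAction P S] (s : S) {x : SP S P} (hx : x.right = 1) :
    (cj s x).left = s * x.left * s⁻¹ ∧ (cj s x).right = 1 := by
  have e1 : x = il x.left := H24.OW.il_lf hx
  have e2 : cj s x = il (s * x.left * s⁻¹) := by
    unfold H73.S3.cj
    conv_lhs => rw [e1]
    rw [H73.S3.il_mul, H73.S3.il_mul, H73.S3.il_inv]
  rw [e2]
  exact ⟨rfl, rfl⟩

variable (X : AD (Sp Pa A) P J V) (t : J → SP (Sp Pa Be) P') (G : (J → SP (Sp Pa Be) P') → Prop)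

/-- the prefix of the places before `v`, evaluated and modulo `gm 2` -/
theorem gk_pf (hev : ∀ j, EVo O Pa (t j) = X.t j) (τ : V → Sp Pa Be) (x : J → SP (Sp Pa Be) P')
    (hr : ∀ v ∈ X.l, ((Yd X t G).bk x v).right = 1) (v : V) :
    gk 1 (O.ev Pa (H24.OW.pf (Yd X t G) τ x v).left) = X.pfx (EvX O Pa x) v := by
  unfold H24.OW.pf AD.pfx
  have hl : ∀ w ∈ H1.S3.pre (Yd X t G).l v, w ∈ X.l := fun w hw => (List.takeWhile_sublist _).subset hw
  have h0 : (X.l.takeWhile fun w => decide (w ≠ v)) = H1.S3.pre (Yd X t G).l v := rfl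
  rw [h0]
  revert hl
  generalize H1.S3.pre (Yd X t G).l v = l
  induction l with
  | nil =>
    intro _
    show gk 1 (O.ev Pa (1 : Sp Pa Be)) = _
    rw [map_one, gk_one]
    rfl
  | cons w l ih =>
    intro hl
    have hw := hr w (hl w List.mem_cons_self)
    obtain ⟨h1, h2⟩ := cj_lf (τ w) hw
    rw [List.map_cons, List.prod_cons, List.map_cons, List.sum_cons, SemidirectProduct.mul_left, h2,
      ← ih fun w' hw' => hl w' (List.mem_cons_of_mem _ hw'), h1]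
    have h3 : (EvX O Pa x) = fun j => EVo O Pa (x j) := rfl
    have h4 : (X.bk (EvX O Pa x) w).left = O.ev Pa ((Yd X t G).bk x w).left := by
      rw [← EVo_left]
      unfold AD.bk
      rw [H73.S3.wd_map]
      exact congrArg _ (H73.S3.wd_congr fun j _ => ⟨(hev j).symm, rfl⟩)
    rw [h4]
    show gk 1 (O.ev Pa (τ w * ((Yd X t G).bk x w).left * (τ w)⁻¹ * (1 : P') • _)) = _
    rw [one_smul, map_mul, gk_mul (Subgroup.mem_top _) (Subgroup.mem_top _), map_mul, map_mul, map_inv,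
      gk_conj (Subgroup.mem_top _)]

end pfx

theorem olk {P P' A Be : Type} [Group P] [Group P'] [MulAction P A] [MulAction P' Be] {d e : ℕ} (he : 1 ≤ e)
    (hd : d = 2 * e) {O : OwL P P' A Be (Fin (d + 1))} {Pa : Par} {J V : Type} {X : AD (Sp Pa A) P J V}
    {t : J → SP (Sp Pa Be) P'} {G : (J → SP (Sp Pa Be) P') → Prop} {r : Fin (d + 1) → J} {p k Mw q : ℕ} [NeZero q]
    (hO : OF O Pa X t G r p k Mw q) {Bf : ∀ i j : ℕ, Gr (Sp Pa A) i →+ Gr (Sp Pa A) j →+ ZMod q}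
    {psi : Sp Pa Be → ZMod q} {R : Subgroup P} {kap : P → Du (Sp Pa A) q (d + 1 + 1)}
    (hP : PsiO O Pa Bf psi R kap) {a : Fin (d + 1) → A} (hta : ∀ i, t (r i) = il (sy Pa (O.pk (a i) (some i))))
    {ζ : X.Jf → Dz (Sp Pa A) q d × Dz (Sp Pa A) q (d + 1)} {τ : V → Sp Pa Be} {x : J → SP (Sp Pa Be) P'}
    (hx : ∀ j ∈ X.Jf, (x j).right = (Yd X t G).ph (X.W j))
    {η : X.Jf → Du (Sp Pa Be) q d × Du (Sp Pa Be) q (d + 1)} (hη : Eta O Pa X t G r psi ζ τ x η)
    {i0 : Fin (d + 1)} {W : List (Fin (d + 1))} (hW : W.length = e) {σ : Fin (d + 1) → Fin (d + 1)}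
    (σr : σ i0 = i0) (σσ : ∀ i, σ (σ i) = i) (hD : (i0 :: (W ++ W.map σ)).Perm (List.finRange (d + 1)))
    (haσ : ∀ i, a (σ i) = a i)
    (hT : ∀ i, Ty X (EvT O Pa τ) (EvX O Pa x) ζ ⟨r (σ i), (hO.mem (σ i)).1⟩ =
      Ty X (EvT O Pa τ) (EvX O Pa x) ζ ⟨r i, (hO.mem i).1⟩)
    (hbad : Bf (e + 1) (e + 1) (gk (e + 1) (H62.BL.rn ((i0 :: W).map fun i => sy Pa (a i))))
      (gk (e + 1) (H62.BL.rn ((i0 :: W).map fun i => sy Pa (a i)))) ≠ 0)
    (Q : Subgroup (Sd P' (Du (Sp Pa Be) q (d + 1)))) :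
    ¬Ulk Q (fun i => sy Pa (O.pk (a i) (some i))) fun i => (η ⟨r i, (hO.mem i).1⟩).1 := by
  subst hd
  -- right parts
  have hok := hO.ok
  have hbr : ∀ v ∈ X.l, ((Yd X t G).bk x v).right = 1 := fun v hv => by
    have h1 : ∀ j, (Yd X t G).t j = 1 ∨ (x j).right = (Yd X t G).ph ((Yd X t G).W j) := fun j => by
      by_cases hj : j ∈ X.Jf
      · exact Or.inr (hx j hj)
      · exact Or.inl (hok.t1 j hj)
    have h2 := H73.S3.bk_rt (Yd X t G) x h1 ((Yd X t G).bl v)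
    exact h2.trans (hok.hb v hv)
  have hxr : ∀ i, (x (r i)).right = 1 := fun i =>
    (hx _ (hO.mem i).1).trans (hok.pw _ (hO.mem i).1 (hO.mem i).2)
  have hxi : ∀ i, x (r i) = il (x (r i)).left := fun i => H24.OW.il_lf (hxr i)
  -- the prefixes
  have hpre : ∀ i, H1.S3.pre ((Yd X t G).bl ((Yd X t G).pj (r i))) (r i) = [] := by
    intro i
    have h1 : (Yd X t G).bl ((Yd X t G).pj (r i)) = [r i] := hok.pb _ (hO.mem i).1 (hO.mem i).2
    rw [h1]
    unfold H1.S3.pre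
    rw [List.takeWhile_cons, decide_eq_false (fun h => h rfl)]
    rfl
  have hcn : ∀ i, H24.OW.cn (Yd X t G) τ x (r i) =
      il ((H24.OW.pf (Yd X t G) τ x (X.pj (r i))).left * τ (X.pj (r i))) := by
    intro i
    unfold H24.OW.cn
    rw [hpre i]
    have h1 : (H24.OW.pf (Yd X t G) τ x (X.pj (r i))).right = 1 := H24.OW.pf_rt (Yd X t G) τ x hbr _
    rw [H73.S3.il_mul, ← H24.OW.il_lf h1]
    show _ * _ * (List.prod []) = _
    rw [List.prod_nil, mul_one]
  let cc : Fin (2 * e + 1) → Sp Pa Be := fun i => (H24.OW.pf (Yd X t G) τ x (X.pj (r i))).left * τ (X.pj (r i))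
  let Ff : Fin (2 * e + 1) → Sp Pa A → ZMod q := fun i =>
    Fft (e := e) Pa Bf (fun u => (ζ ⟨r i, (hO.mem i).1⟩).1.ap (gz (2 * e) u)) (sy Pa (a i)) (O.ev Pa (cc i))
      (O.ev Pa (x (r i)).left)
  have h1 : ∀ u ∈ O.Kk Pa Finset.univ, u ∈ gm (Sp Pa Be) (2 * e + 1) → ∀ v ∈ O.Kk Pa Finset.univ,
      v ∈ gm (Sp Pa Be) (2 * e + 1) → psi (u * v) = psi u + psi v := fun u hu _ v hv _ => hP.add u hu v hv
  have hB : ∀ (i j : ℕ) (T T' : Finset (Fin (2 * e + 1))), i + j = 2 * e + 2 → 1 ≤ i → 1 ≤ j →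
      T ∪ T' = Finset.univ → ∀ u ∈ O.Kk Pa T, u ∈ gm (Sp Pa Be) i → ∀ v ∈ O.Kk Pa T', v ∈ gm (Sp Pa Be) j →
        psi ⁅u, v⁆ = -Bf i j (gk i (O.ev Pa u)) (gk j (O.ev Pa v)) := by
    intro i j T T' hij hi hj hTT u hu gu v hv gv
    exact hP.com i j hi hj hij T T' (by rw [← hTT]) u hu gu v hv gv
  refine nulk he O Pa a i0 W hW σr σσ haσ hD Bf psi h1 hP.bot hB _ Ff ?_ ?_ ?_ Q hbad
  · -- equal types
    intro i
    have hTi := hT i
    unfold Ty at hTi
    obtain ⟨e1, h5⟩ := Prod.mk.inj hTi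
    obtain ⟨e2, h5⟩ := Prod.mk.inj h5
    obtain ⟨e3, e4⟩ := Prod.mk.inj h5
    have c1 : ∀ i, gk 1 (O.ev Pa (cc i)) = X.pfx (EvX O Pa x) (X.pj (r i)) + gk 1 (EvT O Pa τ (X.pj (r i))) := by
      intro i
      show gk 1 (O.ev Pa (_ * _)) = _
      rw [map_mul, gk_mul (Subgroup.mem_top _) (Subgroup.mem_top _), gk_pf O Pa X t G hO.ev τ x hbr]
      rfl
    have c2 : gk 1 (O.ev Pa (cc (σ i))) = gk 1 (O.ev Pa (cc i)) := by
      rw [c1, c1, e4, e2]
    have c3 : gk 1 (O.ev Pa (x (r (σ i))).left) = gk 1 (O.ev Pa (x (r i)).left) := by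
      have h6 : ∀ j, (EvX O Pa x j).left = O.ev Pa (x j).left := fun j => EVo_left O Pa (x j)
      rw [← h6, ← h6]
      exact e3
    have c4 : ∀ s : Sp Pa A, gk 2 ⁅s, O.ev Pa (x (r (σ i))).left⁆ = gk 2 ⁅s, O.ev Pa (x (r i)).left⁆ := by
      intro s
      have h7 := br_gk (m := 1) s (u := O.ev Pa (x (r (σ i))).left) (Subgroup.mem_top _)
      have h8 := br_gk (m := 1) s (u := O.ev Pa (x (r i)).left) (Subgroup.mem_top _)
      rw [← h7, ← h8, c3]
    funext u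
    show Fft (e := e) Pa Bf _ _ _ _ u = Fft (e := e) Pa Bf _ _ _ _ u
    unfold Fft
    rw [c2, c4, haσ, e1]
  · -- additivity
    intro u hu v hv
    show Fft (e := e) Pa Bf _ _ _ _ (u * v) = Fft (e := e) Pa Bf _ _ _ _ u + Fft (e := e) Pa Bf _ _ _ _ v
    unfold Fft
    beta_reduce
    rw [gz_mul hu hv, gk_mul hu hv, ← br_gk _ (mul_mem hu hv), ← br_gk _ hu, ← br_gk _ hv, gk_mul hu hv]
    simp only [map_add, AddMonoidHom.add_apply]
    ring
  · -- the functionals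
    intro i Y hY gY
    have h5 := (hη ⟨r i, (hO.mem i).1⟩).1 (hO.mem i).2
    have h6 : Y ∈ O.Kk Pa (Tj r (r i)) := by
      intro j hj
      refine hY j ?_
      rw [Finset.mem_compl, Finset.mem_singleton]
      rintro rfl
      exact (Finset.mem_filter.1 hj).2 rfl
    rw [h5.2.2.2 Y h6 gY]
    unfold ka zap
    rw [if_pos (hO.mem i).2]
    have hy : sy Pa (O.pk (a i) (some i)) ∈ O.Kk Pa {i} := by
      intro j hj
      rw [Finset.mem_singleton] at hj
      subst hj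
      rw [O.ki_sy, O.ow_pk, if_neg (fun h => h rfl)]
    have h7 := rtf_dj he O Pa Bf psi h1 hB hy hY gY (Yd X t G) τ x (r i) (cc i) (x (r i)).left (hta i) (hxi i)
      (hcn i) (fun u => (ζ ⟨r i, (hO.mem i).1⟩).1.ap (gz (2 * e) u))
    rw [O.ev_sy, O.fs_pk] at h7
    exact h7

end H57.OW
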