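import Pool.Agent.H57.OW.Rtf
import Pool.Agent.H73.OW.Wrd
import Pool.Agent.H12.OW.Eta
import Pool.Agent.H62.OW.F2e
import Pool.Agent.H73.S3.Adf

/-!
# [H57 OW OLKA] MP_b39724_nt, THEOREM OW, b8: own letters with the pattern `pat r0 w` and equal types are not unlinked

`Y` (group with own letters) lies over `X` (`Lf` of H62/OW/F2e), `d = 2 h`, `h ≥ 1`, own letters `Y.t (r i) = il (sy (O.pk (pat r0 w i) (some i)))`.
* `pfl`: the prefix of the places before `v`, evaluated and modulo `gm 2`, is `X.pfx`.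
* `olkA`: if equal letters have equal types (functional, conjugator, value, prefix modulo `gm 2`) and `Bf` is not `0` at `(u, u)`, `u = rn (r0 :: w)`, then the functionals
  `(eta (r i)).1` of H12/OW/Eta are not unlinked, for every `Q`.
-/

set_option autoImplicit false

open scoped commutatorElement Classical

noncomputable section

namespace H57.OW

open H62.BL H82.S3 H88.S3 Pool.Agent.H61.Tu H12.OW H1.S3 H73.OW

open H73.S3 (gm Gr gk Du SP il cj gk_zero gk_one gk_mul gk_inv gk_conj Ulk gm_normal br br_gk gm_comm gm_comm' gm_anti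
  AD)

section sg

variable {h : ℕ}

/-- exchange of the two copies of `w` in the pattern -/
def sgm (h : ℕ) (i : Fin (2 * h + 1)) : Fin (2 * h + 1) :=
  if i.val = 0 then i else if hi : i.val ≤ h then ⟨i.val + h, by omega⟩ else ⟨i.val - h, by omega⟩

theorem sgm_zero : sgm h 0 = 0 := by
  unfold sgm
  exact if_pos (Fin.val_zero _)

theorem sgm_sgm (i : Fin (2 * h + 1)) : sgm h (sgm h i) = i := by
  have hi := i.isLt
  unfold sgm
  by_cases h0 : i.val = 0
  · rw [if_pos h0, if_pos h0]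
  · rw [if_neg h0]
    by_cases h1 : i.val ≤ h
    · rw [dif_pos h1]
      have e1 : ¬(i.val + h = 0) := by omega
      have e2 : ¬(i.val + h ≤ h) := by omega
      rw [if_neg e1, dif_neg e2]
      ext
      show i.val + h - h = i.val
      omega
    · rw [dif_neg h1]
      have e1 : ¬(i.val - h = 0) := by omega
      have e2 : i.val - h ≤ h := by omega
      rw [if_neg e1, dif_pos e2]
      ext
      show i.val - h + h = i.val
      omega

/-- the first copy -/
def wlt (h : ℕ) : List (Fin (2 * h + 1)) := List.ofFn fun i : Fin h => ⟨1 + i.val, by omega⟩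

theorem wlt_len : (wlt h).length = h := List.length_ofFn

theorem sgm_perm : ((0 : Fin (2 * h + 1)) :: (wlt h ++ (wlt h).map (sgm h))).Perm (List.finRange (2 * h + 1)) := by
  have hlen : ((0 : Fin (2 * h + 1)) :: (wlt h ++ (wlt h).map (sgm h))).length = 2 * h + 1 := by
    rw [List.length_cons, List.length_append, List.length_map, wlt_len]
    omega
  have hall : ∀ i : Fin (2 * h + 1), i ∈ (0 : Fin (2 * h + 1)) :: (wlt h ++ (wlt h).map (sgm h)) := by
    intro i
    have hi := i.isLt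
    rw [List.mem_cons, List.mem_append, List.mem_map]
    by_cases h0 : i.val = 0
    · left
      ext
      exact h0
    · right
      by_cases h1 : i.val ≤ h
      · left
        unfold wlt
        rw [List.mem_ofFn]
        refine ⟨⟨i.val - 1, by omega⟩, ?_⟩
        ext
        show 1 + (i.val - 1) = i.val
        omega
      · right
        refine ⟨⟨i.val - h, by omega⟩, ?_, ?_⟩
        · unfold wlt
          rw [List.mem_ofFn]
          refine ⟨⟨i.val - h - 1, by omega⟩, ?_⟩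
          ext
          show 1 + (i.val - h - 1) = i.val - h
          omega
        · unfold sgm
          have e1 : ¬(i.val - h = 0) := by omega
          have e2 : i.val - h ≤ h := by omega
          rw [if_neg e1, dif_pos e2]
          ext
          show i.val - h + h = i.val
          omega
  have hnd : ((0 : Fin (2 * h + 1)) :: (wlt h ++ (wlt h).map (sgm h))).Nodup := by
    have h1 : (Finset.univ : Finset (Fin (2 * h + 1))) ⊆
        ((0 : Fin (2 * h + 1)) :: (wlt h ++ (wlt h).map (sgm h))).toFinset := fun i _ => List.mem_toFinset.2 (hall i)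
    have h2 := Finset.card_le_card h1
    rw [Finset.card_univ, Fintype.card_fin] at h2
    rw [← List.dedup_eq_self]
    refine (List.dedup_sublist _).eq_of_length_le ?_
    rw [hlen]
    exact h2
  exact (List.perm_ext_iff_of_nodup hnd (List.nodup_finRange _)).2 fun i =>
    ⟨fun _ => List.mem_finRange i, fun _ => hall i⟩

theorem pat_sgm {A : Type} (r : A) (w : Fin h → A) (i : Fin (2 * h + 1)) : pat r w (sgm h i) = pat r w i := by
  have hi := i.isLt
  unfold sgm
  by_cases h0 : i.val = 0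
  · rw [if_pos h0]
  · rw [if_neg h0]
    have hh : 0 < h := by omega
    by_cases h1 : i.val ≤ h
    · rw [dif_pos h1]
      unfold pat
      have e1 : 0 < h ∧ 0 < i.val + h := by omega
      have e2 : 0 < h ∧ 0 < i.val := by omega
      rw [dif_pos e1, dif_pos e2]
      congr 1
      ext
      show (i.val + h - 1) % h = (i.val - 1) % h
      rw [show i.val + h - 1 = i.val - 1 + h by omega, Nat.add_mod_right]
    · rw [dif_neg h1]
      unfold pat
      have e1 : 0 < h ∧ 0 < i.val - h := by omega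
      have e2 : 0 < h ∧ 0 < i.val := by omega
      rw [dif_pos e1, dif_pos e2]
      congr 1
      ext
      show (i.val - h - 1) % h = (i.val - 1) % h
      rw [show i.val - 1 = i.val - h - 1 + h by omega, Nat.add_mod_right]

theorem wlt_pat {A T : Type} (r : A) (w : Fin h → A) (f : A → T) :
    ((0 : Fin (2 * h + 1)) :: wlt h).map (fun i => f (pat r w i)) = f r :: List.ofFn fun i => f (w i) := by
  have e0 : pat r w (0 : Fin (2 * h + 1)) = r := by
    unfold pat
    rw [dif_neg (fun h' => absurd h'.2 (lt_irrefl 0))]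
  rw [List.map_cons, e0]
  congr 1
  unfold wlt
  rw [List.map_ofFn]
  congr 1
  funext i
  have hi := i.isLt
  rw [Function.comp_apply]
  congr 1
  unfold pat
  have e1 : 0 < h ∧ 0 < 1 + i.val := by omega
  rw [dif_pos e1]
  congr 1
  ext
  show (1 + i.val - 1) % h = i.val
  rw [show 1 + i.val - 1 = i.val by omega, Nat.mod_eq_of_lt hi]

end sg

section pfx

variable {S P St Pt : Type} [Group S] [Group P] [MulDistribMulAction P S] [Group St] [Group Pt]
  [MulDistribMulAction Pt St] {J V : Type}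

theorem cj_left (s : S) {x : SP S P} (hx : x.right = 1) : (cj s x).left = s * x.left * s⁻¹ ∧ (cj s x).right = 1 := by
  have e1 : x = il x.left := H24.OW.il_lf hx
  have e2 : cj s x = il (s * x.left * s⁻¹) := by
    unfold H73.S3.cj
    conv_lhs => rw [e1]
    rw [H73.S3.il_mul, H73.S3.il_mul, H73.S3.il_inv]
  rw [e2]
  exact ⟨rfl, rfl⟩

/-- the left part of the evaluation -/
theorem ev_left {EV : SP St Pt →* SP S P} {ev : St →* S} (h : ∀ u, EV (il u) = il (ev u)) {x : SP St Pt} (hx : x.right = 1) :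
    (EV x).left = ev x.left := by
  rw [H24.OW.il_lf hx, h]
  rfl

/-- the prefix of the places before `v`, evaluated and modulo `gm 2` -/
theorem pfl {X : AD S P J V} {Y : AD St Pt J V} {EV : SP St Pt →* SP S P} {ev : St →* S} (hL : H62.OW.Lf X Y EV ev)
    (τ : V → St) (x : J → SP St Pt) (hr : ∀ v ∈ Y.l, (Y.bk x v).right = 1) (v : V) :
    gk 1 (ev (H24.OW.pf Y τ x v).left) = X.pfx (fun j => EV (x j)) v := by
  unfold H24.OW.pf AD.pfx
  have h0 : (X.l.takeWhile fun w => decide (w ≠ v)) = H1.S3.pre Y.l v := by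
    rw [hL.l]
    rfl
  have hl : ∀ w ∈ H1.S3.pre Y.l v, w ∈ Y.l := fun w hw => (List.takeWhile_sublist _).subset hw
  rw [h0]
  revert hl
  generalize H1.S3.pre Y.l v = l
  induction l with
  | nil =>
    intro _
    show gk 1 (ev (1 : St)) = _
    rw [map_one, gk_one]
    rfl
  | cons w l ih =>
    intro hl
    have hw := hr w (hl w List.mem_cons_self)
    obtain ⟨h1, h2⟩ := cj_left (τ w) hw
    rw [List.map_cons, List.prod_cons, List.map_cons, List.sum_cons, SemidirectProduct.mul_left, h2,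
      ← ih fun w' hw' => hl w' (List.mem_cons_of_mem _ hw'), h1]
    have h4 : (X.bk (fun j => EV (x j)) w).left = ev (Y.bk x w).left := by
      rw [← ev_left hL.il hw]
      unfold AD.bk
      rw [H73.S3.wd_map, hL.bl]
      exact congrArg _ (H73.S3.wd_congr fun j _ => ⟨(hL.t j).symm, rfl⟩)
    rw [h4]
    show gk 1 (ev (τ w * (Y.bk x w).left * (τ w)⁻¹ * (1 : Pt) • _)) = _
    rw [one_smul, map_mul, gk_mul (Subgroup.mem_top _) (Subgroup.mem_top _), map_mul, map_mul, map_inv,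
      gk_conj (Subgroup.mem_top _)]

end pfx

theorem olkA {P P' A Be : Type} [Group P] [Group P'] [MulAction P A] [MulAction P' Be] {h : ℕ} (hh : 1 ≤ h)
    {O : OwL P P' A Be (Fin (2 * h + 1))} {Pa : Par} {J V : Type} {X : AD (Sp Pa A) P J V} {Y : AD (Sp Pa Be) P' J V}
    {EV : SP (Sp Pa Be) P' →* SP (Sp Pa A) P} (hL : H62.OW.Lf X Y EV (O.ev Pa)) {p k Mw q : ℕ} [NeZero q]
    (hok : Y.Okw p k Mw q) {Bf : ∀ i j : ℕ, Gr (Sp Pa A) i →+ Gr (Sp Pa A) j →+ ZMod q} {psi : Sp Pa Be → ZMod q}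
    (hP : H24.OW.PK P' (O.Kk Pa Finset.univ) psi (2 * h + 1))
    (hB : ∀ i j : ℕ, 1 ≤ i → 1 ≤ j → i + j = 2 * h + 2 → ∀ T T' : Finset (Fin (2 * h + 1)), T ∪ T' = Finset.univ →
      ∀ u ∈ O.Kk Pa T, u ∈ gm (Sp Pa Be) i → ∀ w ∈ O.Kk Pa T', w ∈ gm (Sp Pa Be) j →
        psi ⁅u, w⁆ = -Bf i j (gk i (O.ev Pa u)) (gk j (O.ev Pa w)))
    (r0 : A) (w : Fin h → A) {r : Fin (2 * h + 1) → J} (hmem : ∀ i, r i ∈ Y.Jf ∧ Y.pp (r i))
    (hta : ∀ i, Y.t (r i) = il (sy Pa (O.pk (pat r0 w i) (some i)))) {rv : V → Option (Fin (2 * h + 1))}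
    (hrv : ∀ i, rv (Y.pj (r i)) = some i) {ze : J → Dz (Sp Pa A) q (2 * h) × Dz (Sp Pa A) q (2 * h + 1)}
    (hze : ∀ i, ∀ u ∈ gm (Sp Pa A) (2 * h + 1),
      (ze (r i)).1.ap (gz (2 * h) u) = Bf 1 (2 * h + 1) (gk 1 (X.y (r i))) (gk (2 * h + 1) u))
    {τ : V → Sp Pa Be} {x : J → SP (Sp Pa Be) P'} (hx : ∀ j ∈ Y.Jf, (x j).right = Y.ph (Y.W j))
    (hT : ∀ i i', pat r0 w i = pat r0 w i' → (ze (r i)).1 = (ze (r i')).1 ∧
      gk 1 (O.ev Pa (τ (Y.pj (r i)))) = gk 1 (O.ev Pa (τ (Y.pj (r i')))) ∧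
      gk 1 (EV (x (r i))).left = gk 1 (EV (x (r i'))).left ∧
      X.pfx (fun j => EV (x j)) (Y.pj (r i)) = X.pfx (fun j => EV (x j)) (Y.pj (r i')))
    (hbad : Bf (h + 1) (h + 1) (gk (h + 1) (H62.BL.rn (sy Pa r0 :: List.ofFn fun i => sy Pa (w i))))
      (gk (h + 1) (H62.BL.rn (sy Pa r0 :: List.ofFn fun i => sy Pa (w i)))) ≠ 0)
    (Q : Subgroup (Sd P' (Du (Sp Pa Be) q (2 * h + 1)))) :
    ¬Ulk Q (fun i => sy Pa (O.pk (pat r0 w i) (some i))) fun i =>
      (O.eta Pa Y rv (H24.OW.ka (O.ev Pa) psi Y τ x ze) (r i) : Du (Sp Pa Be) q (2 * h) × Du (Sp Pa Be) q (2 * h + 1)).1 := by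
  -- right parts
  have hxa : ∀ j, Y.t j = 1 ∨ (x j).right = Y.ph (Y.W j) := fun j => by
    by_cases hj : j ∈ Y.Jf
    · exact Or.inr (hx j hj)
    · exact Or.inl (hok.t1 j hj)
  have hbr : ∀ v ∈ Y.l, (Y.bk x v).right = 1 := fun v hv => (H73.S3.bk_rt Y x hxa (Y.bl v)).trans (hok.hb v hv)
  have hxr : ∀ i, (x (r i)).right = 1 := fun i => (hx _ (hmem i).1).trans (hok.pw _ (hmem i).1 (hmem i).2)
  have hxi : ∀ i, x (r i) = il (x (r i)).left := fun i => H24.OW.il_lf (hxr i)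
  -- the prefixes
  have hpb : ∀ i, Y.bl (Y.pj (r i)) = [r i] := fun i => hok.pb _ (hmem i).1 (hmem i).2
  have hpre : ∀ i, H1.S3.pre (Y.bl (Y.pj (r i))) (r i) = [] := by
    intro i
    rw [hpb i]
    unfold H1.S3.pre
    rw [List.takeWhile_cons, decide_eq_false (fun h => h rfl)]
    rfl
  have hcn : ∀ i, H24.OW.cn Y τ x (r i) = il ((H24.OW.pf Y τ x (Y.pj (r i))).left * τ (Y.pj (r i))) := by
    intro i
    unfold H24.OW.cn
    rw [hpre i]
    have h1 : (H24.OW.pf Y τ x (Y.pj (r i))).right = 1 := H24.OW.pf_rt Y τ x hbr _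
    rw [H73.S3.il_mul, ← H24.OW.il_lf h1]
    show _ * _ * (List.prod []) = _
    rw [List.prod_nil, mul_one]
  let cc : Fin (2 * h + 1) → Sp Pa Be := fun i => (H24.OW.pf Y τ x (Y.pj (r i))).left * τ (Y.pj (r i))
  let Ff : Fin (2 * h + 1) → Sp Pa A → ZMod q := fun i =>
    Fft (e := h) Pa Bf (fun u => (ze (r i)).1.ap (gz (2 * h) u)) (sy Pa (pat r0 w i)) (O.ev Pa (cc i))
      (O.ev Pa (x (r i)).left)
  have h1 : ∀ u ∈ O.Kk Pa Finset.univ, u ∈ gm (Sp Pa Be) (2 * h + 1) → ∀ v ∈ O.Kk Pa Finset.univ,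
      v ∈ gm (Sp Pa Be) (2 * h + 1) → psi (u * v) = psi u + psi v := fun u hu _ v hv _ => hP.add u hu v hv
  have hB' : ∀ (i j : ℕ) (T T' : Finset (Fin (2 * h + 1))), i + j = 2 * h + 2 → 1 ≤ i → 1 ≤ j →
      T ∪ T' = Finset.univ → ∀ u ∈ O.Kk Pa T, u ∈ gm (Sp Pa Be) i → ∀ v ∈ O.Kk Pa T', v ∈ gm (Sp Pa Be) j →
        psi ⁅u, v⁆ = -Bf i j (gk i (O.ev Pa u)) (gk j (O.ev Pa v)) := by
    intro i j T T' hij hi hj hTT u hu gu v hv gv
    exact hB i j hi hj hij T T' (by rw [← hTT]) u hu gu v hv gv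
  have hyk : ∀ i, sy Pa (O.pk (pat r0 w i) (some i)) ∈ O.Kk Pa {i} := fun i => O.sy_kk Pa i _
  have hdl : ∀ i, ∀ u ∈ O.Kk Pa {i}ᶜ, H24.OW.dl (Y.t (r i)) (x (r i)) u ∈ O.Kk Pa Finset.univ := by
    intro i u hu
    rw [hta]
    refine H12.OW.kk_dl (hyk i) ?_ _
    refine Eq.mp ?_ hu
    congr
    exact Subsingleton.elim _ _
  have hle : ∀ i : Fin (2 * h + 1), O.Kk Pa {i}ᶜ ≤ gm (Sp Pa Be) (2 * h) := by
    intro i
    have h5 := O.kk_le Pa ({i}ᶜ : Finset (Fin (2 * h + 1)))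
    rw [Finset.card_compl, Finset.card_singleton, Fintype.card_fin] at h5
    exact h5
  have hadd : ∀ i, ∀ u ∈ O.Kk Pa {i}ᶜ, ∀ v ∈ O.Kk Pa {i}ᶜ, H24.OW.ka (O.ev Pa) psi Y τ x ze (r i) (u * v) =
      H24.OW.ka (O.ev Pa) psi Y τ x ze (r i) u + H24.OW.ka (O.ev Pa) psi Y τ x ze (r i) v := by
    intro i u hu v hv
    refine H24.OW.ka_add (O.ev Pa) Y τ x ze hP (by omega) (L := O.Kk Pa {i}ᶜ) (r i) ?_ (hdl i) hu hv
    rw [if_pos (hmem i).2]
    exact hle i
  have hzero : ∀ i, ∀ u ∈ O.Kk Pa {i}ᶜ, u ∈ gm (Sp Pa Be) (2 * h + 1) → H24.OW.ka (O.ev Pa) psi Y τ x ze (r i) u = 0 := by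
    intro i u hu gu
    have hyy : Y.y (r i) = sy Pa (O.pk (pat r0 w i) (some i)) := by
      unfold AD.y
      rw [hta]
      rfl
    have hun : ({i} : Finset (Fin (2 * h + 1))) ∪ {i}ᶜ = Finset.univ := Finset.union_compl _
    have h5 := hB 1 (2 * h + 1) le_rfl (by omega) (by omega) {i} {i}ᶜ hun _ (hyk i) (Subgroup.mem_top _) u hu gu
    refine H24.OW.ka_pp (O.ev Pa) Y τ x ze hP (hmem i).2 (hpb i) (hok.pt _ (hmem i).1 (hmem i).2) hbr (hxr i) gu ?_
      (hdl i u hu) ?_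
    · rw [hyy, ← hun]
      refine Eq.mp ?_ (O.kk_comm Pa (hyk i) hu)
      congr
      exact Subsingleton.elim _ _
    · have gu' : O.ev Pa u ∈ gm (Sp Pa A) (2 * h + 1) := H12.OW.gm_hom _ gu
      rw [rs_gk _ gu', hze i _ gu', hyy, h5, neg_neg]
      have h6 : X.y (r i) = O.ev Pa (sy Pa (O.pk (pat r0 w i) (some i))) := by
        unfold AD.y
        rw [← hL.t, hta, hL.il]
        rfl
      rw [h6]
  have key := nulk hh O Pa (fun i => pat r0 w i) 0 (wlt h) wlt_len sgm_zero sgm_sgm (fun i => pat_sgm r0 w i)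
    sgm_perm Bf psi h1 hP.bot hB' (fun i => (O.eta Pa Y rv (H24.OW.ka (O.ev Pa) psi Y τ x ze) (r i) :
      Du (Sp Pa Be) q (2 * h) × Du (Sp Pa Be) q (2 * h + 1)).1) Ff ?_ ?_ ?_ Q ?_
  · exact key
  · -- equal types
    intro i
    obtain ⟨e1, e2, e3, e4⟩ := hT _ _ (pat_sgm r0 w i)
    have c1 : ∀ i, gk 1 (O.ev Pa (cc i)) = X.pfx (fun j => EV (x j)) (Y.pj (r i)) + gk 1 (O.ev Pa (τ (Y.pj (r i)))) := by
      intro i
      show gk 1 (O.ev Pa (_ * _)) = _
      rw [map_mul, gk_mul (Subgroup.mem_top _) (Subgroup.mem_top _), pfl hL τ x hbr]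
    have c2 : gk 1 (O.ev Pa (cc (sgm h i))) = gk 1 (O.ev Pa (cc i)) := by
      rw [c1, c1, e4, e2]
    have c3 : gk 1 (O.ev Pa (x (r (sgm h i))).left) = gk 1 (O.ev Pa (x (r i)).left) := by
      rw [ev_left hL.il (hxr _), ev_left hL.il (hxr _)] at e3
      exact e3
    have c4 : ∀ s : Sp Pa A, gk 2 ⁅s, O.ev Pa (x (r (sgm h i))).left⁆ = gk 2 ⁅s, O.ev Pa (x (r i)).left⁆ := by
      intro s
      have h7 := br_gk (m := 1) s (u := O.ev Pa (x (r (sgm h i))).left) (Subgroup.mem_top _)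
      have h8 := br_gk (m := 1) s (u := O.ev Pa (x (r i)).left) (Subgroup.mem_top _)
      rw [← h7, ← h8, c3]
    funext u
    show Fft (e := h) Pa Bf _ _ _ _ u = Fft (e := h) Pa Bf _ _ _ _ u
    unfold Fft
    rw [c2, c4, pat_sgm, e1]
  · -- additivity
    intro u hu v hv
    show Fft (e := h) Pa Bf _ _ _ _ (u * v) = Fft (e := h) Pa Bf _ _ _ _ u + Fft (e := h) Pa Bf _ _ _ _ v
    unfold Fft
    beta_reduce
    rw [gz_mul hu hv, gk_mul hu hv, ← br_gk _ (mul_mem hu hv), ← br_gk _ hu, ← br_gk _ hv, gk_mul hu hv]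
    simp only [map_add, AddMonoidHom.add_apply]
    ring
  · -- the functionals
    intro i u hu gu
    have h5 : (O.eta Pa Y rv (H24.OW.ka (O.ev Pa) psi Y τ x ze) (r i) :
        Du (Sp Pa Be) q (2 * h) × Du (Sp Pa Be) q (2 * h + 1)).1 =
        O.exf Pa {i}ᶜ (2 * h) (H24.OW.ka (O.ev Pa) psi Y τ x ze (r i)) := by
      have e0 : Tv rv (Y.pj (r i)) = ({i}ᶜ : Finset (Fin (2 * h + 1))) := by
        rw [tv_some (hrv i)]
        ext k
        simp
      unfold OwL.eta
      rw [if_pos (hmem i).2, e0]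
    beta_reduce
    rw [h5, O.exf_spec Pa (fun u hu _ v hv _ => hadd i u hu v hv) (fun u hu gu => hzero i u hu gu) hu gu]
    unfold H24.OW.ka
    rw [if_pos (hmem i).2]
    have h7 := rtf_dj hh O Pa Bf psi h1 hB' (hyk i) hu gu Y τ x (r i) (cc i) (x (r i)).left (hta i) (hxi i)
      (hcn i) (fun u => (ze (r i)).1.ap (gz (2 * h) u))
    rw [O.ev_sy, O.fs_pk] at h7
    exact h7
  · rw [wlt_pat r0 w fun a => sy Pa a]
    exact hbad

end H57.OW
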