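import Pool.Agent.H57.OW.Olk
import Pool.Agent.H73.OW.Wrd

/-!
# [H57 OW OPT] MP_b39724_nt, THEOREM OW, b8: the pattern `pat r w` with own letters is not unlinked

`sg h`: the involution of `Fin (2 h + 1)` which fixes `0` and exchanges `i` and `i + h` (`1 ≤ i ≤ h`). `wl h = [1, …, h]`. `sg_perm`: `0 :: (wl ++ wl.map sg)` are all indices, `pat_sg`,
`wl_pat`. `olk_pat`: `olk` for the letters `pat r0 w`.
-/

set_option autoImplicit false

open scoped commutatorElement Classical

noncomputable section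

namespace H57.OW

open H62.BL H82.S3 H88.S3 Pool.Agent.H61.Tu H12.OW H1.S3 H73.OW H97.OW

open H73.S3 (gm Gr gk Du SP il cj Ulk AD)

section sg

variable {h : ℕ}

/-- exchange of the two copies of `w` in the pattern -/
def sg (h : ℕ) (i : Fin (2 * h + 1)) : Fin (2 * h + 1) :=
  if i.val = 0 then i else if hi : i.val ≤ h then ⟨i.val + h, by omega⟩ else ⟨i.val - h, by omega⟩

theorem sg_zero : sg h 0 = 0 := by
  unfold sg
  exact if_pos (Fin.val_zero _)

theorem sg_sg (i : Fin (2 * h + 1)) : sg h (sg h i) = i := by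
  have hi := i.isLt
  unfold sg
  by_cases h0 : i.val = 0
  · rw [if_pos h0, if_pos h0]
  · rw [if_neg h0]
    by_cases h1 : i.val ≤ h
    · rw [dif_pos h1]
      have e1 : ¬(i.val + h = 0) := by omega
      have e2 : ¬(i.val + h ≤ h) := by omega
      rw [if_neg e1, dif_neg e2]
      ext
      show i.val + h - h = i.val
      omega
    · rw [dif_neg h1]
      have e1 : ¬(i.val - h = 0) := by omega
      have e2 : i.val - h ≤ h := by omega
      rw [if_neg e1, dif_pos e2]
      ext
      show i.val - h + h = i.val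
      omega

/-- the first copy -/
def wl (h : ℕ) : List (Fin (2 * h + 1)) := List.ofFn fun i : Fin h => ⟨1 + i.val, by omega⟩

theorem wl_len : (wl h).length = h := List.length_ofFn

theorem wl_sg (i : Fin h) : sg h ⟨1 + i.val, by omega⟩ = ⟨1 + i.val + h, by omega⟩ := by
  have hi := i.isLt
  unfold sg
  have e1 : ¬(1 + i.val = 0) := by omega
  have e2 : 1 + i.val ≤ h := by omega
  rw [if_neg e1, dif_pos e2]

theorem sg_perm : ((0 : Fin (2 * h + 1)) :: (wl h ++ (wl h).map (sg h))).Perm (List.finRange (2 * h + 1)) := by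
  have hlen : ((0 : Fin (2 * h + 1)) :: (wl h ++ (wl h).map (sg h))).length = 2 * h + 1 := by
    rw [List.length_cons, List.length_append, List.length_map, wl_len]
    omega
  have hall : ∀ i : Fin (2 * h + 1), i ∈ (0 : Fin (2 * h + 1)) :: (wl h ++ (wl h).map (sg h)) := by
    intro i
    have hi := i.isLt
    rw [List.mem_cons, List.mem_append, List.mem_map]
    by_cases h0 : i.val = 0
    · left
      ext
      exact h0
    · right
      by_cases h1 : i.val ≤ h
      · left
        unfold wl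
        rw [List.mem_ofFn]
        refine ⟨⟨i.val - 1, by omega⟩, ?_⟩
        ext
        show 1 + (i.val - 1) = i.val
        omega
      · right
        refine ⟨⟨i.val - h, by omega⟩, ?_, ?_⟩
        · unfold wl
          rw [List.mem_ofFn]
          refine ⟨⟨i.val - h - 1, by omega⟩, ?_⟩
          ext
          show 1 + (i.val - h - 1) = i.val - h
          omega
        · unfold sg
          have e1 : ¬(i.val - h = 0) := by omega
          have e2 : i.val - h ≤ h := by omega
          rw [if_neg e1, dif_pos e2]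
          ext
          show i.val - h + h = i.val
          omega
  have hnd : ((0 : Fin (2 * h + 1)) :: (wl h ++ (wl h).map (sg h))).Nodup := by
    have h1 : (Finset.univ : Finset (Fin (2 * h + 1))) ⊆
        ((0 : Fin (2 * h + 1)) :: (wl h ++ (wl h).map (sg h))).toFinset := fun i _ => List.mem_toFinset.2 (hall i)
    have h2 := Finset.card_le_card h1
    rw [Finset.card_univ, Fintype.card_fin] at h2
    have h3 := List.toFinset_card_le ((0 : Fin (2 * h + 1)) :: (wl h ++ (wl h).map (sg h)))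
    rw [← List.dedup_eq_self]
    refine (List.dedup_sublist _).eq_of_length_le ?_
    rw [hlen]
    exact h2
  exact (List.perm_ext_iff_of_nodup hnd (List.nodup_finRange _)).2 fun i =>
    ⟨fun _ => List.mem_finRange i, fun _ => hall i⟩

theorem pat_sg {A : Type} (r : A) (w : Fin h → A) (i : Fin (2 * h + 1)) : pat r w (sg h i) = pat r w i := by
  have hi := i.isLt
  unfold sg
  by_cases h0 : i.val = 0
  · rw [if_pos h0]
  · rw [if_neg h0]
    have hh : 0 < h := by omega
    by_cases h1 : i.val ≤ h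
    · rw [dif_pos h1]
      unfold pat
      have e1 : 0 < h ∧ 0 < i.val + h := by omega
      have e2 : 0 < h ∧ 0 < i.val := by omega
      rw [dif_pos e1, dif_pos e2]
      congr 1
      ext
      show (i.val + h - 1) % h = (i.val - 1) % h
      rw [show i.val + h - 1 = i.val - 1 + h by omega, Nat.add_mod_right]
    · rw [dif_neg h1]
      unfold pat
      have e1 : 0 < h ∧ 0 < i.val - h := by omega
      have e2 : 0 < h ∧ 0 < i.val := by omega
      rw [dif_pos e1, dif_pos e2]
      congr 1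
      ext
      show (i.val - h - 1) % h = (i.val - 1) % h
      rw [show i.val - 1 = i.val - h - 1 + h by omega, Nat.add_mod_right]

theorem wl_pat {A T : Type} (r : A) (w : Fin h → A) (f : A → T) :
    ((0 : Fin (2 * h + 1)) :: wl h).map (fun i => f (pat r w i)) = f r :: List.ofFn fun i => f (w i) := by
  have e0 : pat r w (0 : Fin (2 * h + 1)) = r := by
    unfold pat
    rw [dif_neg (fun h' => absurd h'.2 (lt_irrefl 0))]
  rw [List.map_cons, e0]
  congr 1
  unfold wl
  rw [List.map_ofFn]
  congr 1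
  funext i
  have hi := i.isLt
  rw [Function.comp_apply]
  congr 1
  unfold pat
  have e1 : 0 < h ∧ 0 < 1 + i.val := by omega
  rw [dif_pos e1]
  congr 1
  ext
  show (1 + i.val - 1) % h = i.val
  rw [show 1 + i.val - 1 = i.val by omega, Nat.mod_eq_of_lt hi]

end sg

theorem olk_pat {P P' A Be : Type} [Group P] [Group P'] [MulAction P A] [MulAction P' Be] {h : ℕ} (hh : 1 ≤ h)
    {O : OwL P P' A Be (Fin (2 * h + 1))} {Pa : Par} {J V : Type} {X : AD (Sp Pa A) P J V}
    {t : J → SP (Sp Pa Be) P'} {G : (J → SP (Sp Pa Be) P') → Prop} {r : Fin (2 * h + 1) → J} {p k Mw q : ℕ} [NeZero q]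
    (hO : OF O Pa X t G r p k Mw q) {Bf : ∀ i j : ℕ, Gr (Sp Pa A) i →+ Gr (Sp Pa A) j →+ ZMod q}
    {psi : Sp Pa Be → ZMod q} {R : Subgroup P} {kap : P → Du (Sp Pa A) q (2 * h + 1 + 1)}
    (hP : PsiO O Pa Bf psi R kap) (r0 : A) (w : Fin h → A)
    (hta : ∀ i, t (r i) = il (sy Pa (O.pk (pat r0 w i) (some i))))
    {ζ : X.Jf → Dz (Sp Pa A) q (2 * h) × Dz (Sp Pa A) q (2 * h + 1)} {τ : V → Sp Pa Be} {x : J → SP (Sp Pa Be) P'}
    (hx : ∀ j ∈ X.Jf, (x j).right = (Yd X t G).ph (X.W j))
    {η : X.Jf → Du (Sp Pa Be) q (2 * h) × Du (Sp Pa Be) q (2 * h + 1)} (hη : Eta O Pa X t G r psi ζ τ x η)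
    (hT : ∀ i i', pat r0 w i = pat r0 w i' → Ty X (EvT O Pa τ) (EvX O Pa x) ζ ⟨r i, (hO.mem i).1⟩ =
      Ty X (EvT O Pa τ) (EvX O Pa x) ζ ⟨r i', (hO.mem i').1⟩)
    (hbad : Bf (h + 1) (h + 1) (gk (h + 1) (H62.BL.rn (sy Pa r0 :: List.ofFn fun i => sy Pa (w i))))
      (gk (h + 1) (H62.BL.rn (sy Pa r0 :: List.ofFn fun i => sy Pa (w i)))) ≠ 0)
    (Q : Subgroup (Sd P' (Du (Sp Pa Be) q (2 * h + 1)))) :
    ¬Ulk Q (fun i => sy Pa (O.pk (pat r0 w i) (some i))) fun i => (η ⟨r i, (hO.mem i).1⟩).1 := by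
  refine olk hh rfl hO hP hta hx hη (i0 := 0) (W := wl h) wl_len (σ := sg h) sg_zero sg_sg sg_perm
    (fun i => pat_sg r0 w i) (fun i => hT _ _ (pat_sg r0 w i)) ?_ Q
  rw [wl_pat r0 w fun a => sy Pa a]
  exact hbad

end H57.OW
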