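import Pool.Agent.H57.OW.Lnk

/-!
# [H57 OW PSH] MP_b39724_nt, THEOREM OW, S5: functions on words, injective maps of letters; elements of full support

* `pu p ρ y`: the function `v ↦ y (v.map ρ)` on the words with all letters in `p`. `pu_br`: `br w ↦ br (w.map φ)` if `p b ∧ ρ b = a ↔ b = φ a`.
* `ful`: an element of the free group on a finite alphabet which dies when any letter is killed is, modulo the next term, a product of right normed commutators of words which
  contain every letter.
-/

set_option autoImplicit false

open scoped commutatorElement Classical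

noncomputable section

namespace H57.OW

open H62.BL H82.S3 H88.S3 Pool.Agent.H61.Tu

section pu

variable {α β R : Type} [CommRing R]

/-- pull back along `ρ`, restricted to `p` -/
def pu (p : β → Prop) (ρ : β → α) : (List α → R) →ₗ[R] (List β → R) where
  toFun y v := if ∀ b ∈ v, p b then y (v.map ρ) else 0
  map_add' x y := by
    funext v
    show (if ∀ b ∈ v, p b then x (v.map ρ) + y (v.map ρ) else 0) = _
    by_cases h : ∀ b ∈ v, p b
    · simp only [if_pos h, Pi.add_apply]
    · simp only [if_neg h, Pi.add_apply, add_zero]
  map_smul' r x := by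
    funext v
    show (if ∀ b ∈ v, p b then r * x (v.map ρ) else 0) = _
    by_cases h : ∀ b ∈ v, p b
    · simp only [if_pos h, Pi.smul_apply, RingHom.id_apply, smul_eq_mul]
    · simp only [if_neg h, Pi.smul_apply, RingHom.id_apply, smul_zero]

theorem pu_apply (p : β → Prop) (ρ : β → α) (y : List α → R) (v : List β) :
    pu p ρ y v = if ∀ b ∈ v, p b then y (v.map ρ) else 0 := rfl

theorem cv_zero (y : List β → R) (v : List β) : cv (fun _ => (0 : R)) y v = 0 := by
  induction v with
  | nil => rw [cv, zero_mul]
  | cons b v ih => rw [cv, zero_mul, zero_add]; exact ih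

theorem pu_cv (p : β → Prop) (ρ : β → α) (x y : List α → R) (v : List β) :
    cv (pu p ρ x) (pu p ρ y) v = pu p ρ (cv x y) v := by
  induction v generalizing x with
  | nil => simp [cv, pu_apply]
  | cons b v ih =>
    rw [cv]
    by_cases hb : p b
    · have h1 : (fun u => pu p ρ x (b :: u)) = pu p ρ (fun u => x (ρ b :: u)) := by
        funext u
        rw [pu_apply, pu_apply, List.map_cons]
        simp [hb]
      rw [h1, ih (fun u => x (ρ b :: u)), pu_apply, pu_apply, pu_apply, pu_apply, List.map_cons, cv]
      by_cases hv : ∀ c ∈ v, p c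
      · have h2 : ∀ c ∈ b :: v, p c := by
          intro c hc
          rcases List.mem_cons.1 hc with rfl | hc
          · exact hb
          · exact hv c hc
        rw [if_pos hv, if_pos h2, if_pos h2]
        simp
      · have h2 : ¬ ∀ c ∈ b :: v, p c := fun h => hv fun c hc => h c (List.mem_cons_of_mem _ hc)
        rw [if_neg hv, if_neg h2, if_neg h2, mul_zero, add_zero]
    · have h2 : ¬ ∀ c ∈ b :: v, p c := fun h => hb (h b List.mem_cons_self)
      have h1 : (fun u => pu p ρ x (b :: u)) = fun _ => (0 : R) := by
        funext u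
        rw [pu_apply, if_neg fun h => hb (h b List.mem_cons_self)]
      rw [h1, cv_zero, pu_apply p ρ y (b :: v), if_neg h2, pu_apply p ρ (cv x y) (b :: v), if_neg h2, mul_zero, add_zero]

theorem pu_el {p : β → Prop} {ρ : β → α} {φ : α → β} (h : ∀ a b, p b ∧ ρ b = a ↔ b = φ a) (a : α) :
    pu p ρ (el a : List α → R) = el (φ a) := by
  funext v
  rw [pu_apply]
  show (if ∀ b ∈ v, p b then (if v.map ρ = [a] then 1 else 0 : R) else 0) = if v = [φ a] then 1 else 0
  by_cases hv : v = [φ a]
  · have h1 := (h a (φ a)).2 rfl
    rw [if_pos hv, hv, if_pos (by simpa using h1.1), if_pos (by simp [h1.2])]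
  · rw [if_neg hv]
    by_cases h2 : ∀ b ∈ v, p b
    · rw [if_pos h2, if_neg]
      intro h3
      have h4 : v.length = 1 := by rw [← List.length_map (f := ρ), h3, List.length_singleton]
      obtain ⟨b, rfl⟩ := List.length_eq_one_iff.1 h4
      have h5 : ρ b = a := by simpa using h3
      have h6 := (h a b).1 ⟨h2 b (by simp), h5⟩
      exact hv (by rw [h6])
    · rw [if_neg h2]

theorem pu_br {p : β → Prop} {ρ : β → α} {φ : α → β} (h : ∀ a b, p b ∧ ρ b = a ↔ b = φ a) (w : List α) :
    pu p ρ (br w : List α → R) = br (w.map φ) := by
  induction w with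
  | nil => exact map_zero _
  | cons a w ih =>
    by_cases hw : w = []
    · subst hw
      exact pu_el h a
    · rw [br_cons a hw, map_sub, List.map_cons, br_cons (φ a) (by simpa using hw)]
      have h1 : pu p ρ (cv (el a) (br w) : List α → R) = cv (el (φ a)) (br (w.map φ)) := by
        rw [← ih, ← pu_el (R := R) h a]
        funext v
        exact (pu_cv p ρ _ _ v).symm
      have h2 : pu p ρ (cv (br w) (el a) : List α → R) = cv (br (w.map φ)) (el (φ a)) := by
        rw [← ih, ← pu_el (R := R) h a]
        funext v
        exact (pu_cv p ρ _ _ v).symm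
      rw [h1, h2]

end pu

end H57.OW
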