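import Pool.Agent.H57.OW.Nulk
import Pool.Agent.H24.OW.Rch

/-!
# [H57 OW RTF] MP_b39724_nt, THEOREM OW, S5/b8: the functional of a root depends on the type and on `⁅y, Y⁆`

`y ∈ Kk {k}` the own letter, `Y ∈ Kk {k}ᶜ ⊓ gm (M - 1)`, `M = 2 e + 1`. `rtf`: `ψ (c (y Y y⁻¹ · ⁅y, x⁆ Y⁻¹ ⁅y, x⁆⁻¹) c⁻¹) = ψ ⁅y, Y⁆ - B (c, ⁅y, Y⁆) - B (Y, ⁅y, x⁆)` (all evaluated).
`Fft`: the function of the type (letter, two layer functional, prefix and conjugator modulo `gm 2`, value modulo `gm 2`). `rtf_dj`: for `Dj` of H24/OW/Rch at a letter with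
`t = il y`, values and prefix in `il`.
-/

set_option autoImplicit false

open scoped commutatorElement Classical

noncomputable section

namespace H57.OW

open H62.BL H82.S3 H88.S3 Pool.Agent.H61.Tu H12.OW H1.S3

open H73.S3 (gm Gr gk Du SP il gk_zero gk_one gk_mul gk_inv Ulk gm_normal br br_gk gm_comm gm_comm' gm_anti AD)

variable {P P' A Be : Type} [Group P] [Group P'] [MulAction P A] [MulAction P' Be] {e q : ℕ}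

/-- the function of the type -/
def Fft (Pa : Par) (B : ∀ i j : ℕ, Gr (Sp Pa A) i →+ Gr (Sp Pa A) j →+ ZMod q) (chi : Sp Pa A → ZMod q)
    (s c x : Sp Pa A) (u : Sp Pa A) : ZMod q :=
  chi u - B 1 (2 * e + 1) (gk 1 c) (gk (2 * e + 1) ⁅s, u⁆) - B (2 * e) 2 (gk (2 * e) u) (gk 2 ⁅s, x⁆)

theorem kk_all {I : Type} (O : OwL P P' A Be I) (Pa : Par) {J J' T : Finset I} (h : ∀ i ∈ T, i ∈ J ∨ i ∈ J') {x y : Sp Pa Be}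
    (hx : x ∈ O.Kk Pa J) (hy : y ∈ O.Kk Pa J') : ⁅x, y⁆ ∈ O.Kk Pa T := by
  intro i hi
  rcases h i hi with h | h
  · rw [map_commutatorElement, hx i h, commutatorElement_one_left]
  · rw [map_commutatorElement, hy i h, commutatorElement_one_right]

theorem rtf (he : 1 ≤ e) (O : OwL P P' A Be (Fin (2 * e + 1))) (Pa : Par)
    (B : ∀ i j : ℕ, Gr (Sp Pa A) i →+ Gr (Sp Pa A) j →+ ZMod q) (ψ : Sp Pa Be → ZMod q)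
    (h1 : ∀ u ∈ O.Kk Pa Finset.univ, u ∈ gm (Sp Pa Be) (2 * e + 1) → ∀ v ∈ O.Kk Pa Finset.univ,
      v ∈ gm (Sp Pa Be) (2 * e + 1) → ψ (u * v) = ψ u + ψ v)
    (hB : ∀ (i j : ℕ) (J J' : Finset (Fin (2 * e + 1))), i + j = 2 * e + 2 → 1 ≤ i → 1 ≤ j → J ∪ J' = Finset.univ →
      ∀ u ∈ O.Kk Pa J, u ∈ gm (Sp Pa Be) i → ∀ v ∈ O.Kk Pa J', v ∈ gm (Sp Pa Be) j →
        ψ ⁅u, v⁆ = -B i j (gk i (O.ev Pa u)) (gk j (O.ev Pa v)))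
    {k : Fin (2 * e + 1)} {y Y : Sp Pa Be} (hy : y ∈ O.Kk Pa {k}) (hY : Y ∈ O.Kk Pa {k}ᶜ)
    (gY : Y ∈ gm (Sp Pa Be) (2 * e)) (c x : Sp Pa Be) :
    ψ (c * ((y * Y * y⁻¹) * (⁅y, x⁆ * Y⁻¹ * ⁅y, x⁆⁻¹)) * c⁻¹) =
      ψ ⁅y, Y⁆ - B 1 (2 * e + 1) (gk 1 (O.ev Pa c)) (gk (2 * e + 1) ⁅O.ev Pa y, O.ev Pa Y⁆) -
        B (2 * e) 2 (gk (2 * e) (O.ev Pa Y)) (gk 2 ⁅O.ev Pa y, O.ev Pa x⁆) := by
  have hun : ({k} : Finset (Fin (2 * e + 1))) ∪ {k}ᶜ = Finset.univ := by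
    ext j
    simp only [Finset.mem_union, Finset.mem_singleton, Finset.mem_compl, Finset.mem_univ, iff_true]
    exact em _
  have hun' : ({k}ᶜ : Finset (Fin (2 * e + 1))) ∪ {k} = Finset.univ := by rw [Finset.union_comm, hun]
  have K1 : ⁅y, Y⁆ ∈ O.Kk Pa Finset.univ := kk_all O Pa (fun i _ => by
    by_cases h : i = k
    · exact Or.inl (by simp [h])
    · exact Or.inr (by simp [h])) hy hY
  have G1 : ⁅y, Y⁆ ∈ gm (Sp Pa Be) (2 * e + 1) := gm_comm' _ gY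
  have hb : ⁅y, x⁆ ∈ O.Kk Pa {k} := kk_all O Pa (J' := ∅) (fun i hi => Or.inl hi) hy
    (fun i hi => absurd hi (Finset.notMem_empty i))
  have gb : ⁅y, x⁆ ∈ gm (Sp Pa Be) 2 := gm_comm (S := Sp Pa Be) 1 (Subgroup.mem_top y)
  have K2 : ⁅Y, ⁅y, x⁆⁆ ∈ O.Kk Pa Finset.univ := kk_all O Pa (fun i _ => by
    by_cases h : i = k
    · exact Or.inr (by simp [h])
    · exact Or.inl (by simp [h])) hY hb
  have G2 : ⁅Y, ⁅y, x⁆⁆ ∈ gm (Sp Pa Be) (2 * e + 1) := gm_comm _ gY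
  have Gm := gm_normal (S := Sp Pa Be) (2 * e + 1)
  have Km := O.kk_normal Pa (Finset.univ : Finset (Fin (2 * e + 1)))
  have e1 : (y * Y * y⁻¹) * (⁅y, x⁆ * Y⁻¹ * ⁅y, x⁆⁻¹) = ⁅y, Y⁆ * ⁅Y, ⁅y, x⁆⁆ := by
    simp only [commutatorElement_def]
    group
  have K3 := mul_mem K1 K2
  have G3 := mul_mem G1 G2
  have e2 : c * (⁅y, Y⁆ * ⁅Y, ⁅y, x⁆⁆) * c⁻¹ = ⁅c, ⁅y, Y⁆ * ⁅Y, ⁅y, x⁆⁆⁆ * (⁅y, Y⁆ * ⁅Y, ⁅y, x⁆⁆) := by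
    simp only [commutatorElement_def]
    group
  have K4 : ⁅c, ⁅y, Y⁆ * ⁅Y, ⁅y, x⁆⁆⁆ ∈ O.Kk Pa Finset.univ := by
    rw [commutatorElement_def]
    exact mul_mem (Km.conj_mem _ K3 c) (inv_mem K3)
  have G4 : ⁅c, ⁅y, Y⁆ * ⁅Y, ⁅y, x⁆⁆⁆ ∈ gm (Sp Pa Be) (2 * e + 1) := by
    rw [commutatorElement_def]
    exact mul_mem (Gm.conj_mem _ G3 c) (inv_mem G3)
  rw [e1, e2, h1 _ K4 G4 _ K3 G3, h1 _ K1 G1 _ K2 G2]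
  have h2 := hB 1 (2 * e + 1) ∅ Finset.univ (by omega) (by omega) (by omega) (Finset.empty_union _) c
    (fun i hi => absurd hi (Finset.notMem_empty i)) (Subgroup.mem_top _) _ K3 G3
  have h3 := hB (2 * e) 2 {k}ᶜ {k} (by omega) (by omega) (by omega) hun' Y hY gY _ hb gb
  have g2 : O.ev Pa ⁅Y, ⁅y, x⁆⁆ ∈ gm (Sp Pa A) (2 * e + 2) := by
    rw [map_commutatorElement]
    have h5 : O.ev Pa Y ∈ gm (Sp Pa A) (2 * e) := gm_hom (O.ev Pa) gY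
    have h6 : O.ev Pa ⁅y, x⁆ ∈ gm (Sp Pa A) 2 := gm_hom (O.ev Pa) gb
    have h7 := comm_mem (⟨O.ev Pa Y, h5⟩ : gam (Sp Pa A) (2 * e - 1)) (⟨_, h6⟩ : gam (Sp Pa A) 1)
    have e5 : 2 * e - 1 + 1 + 1 = 2 * e + 2 - 1 := by omega
    rw [e5] at h7
    exact h7
  have e3 : gk (2 * e + 1) (O.ev Pa (⁅y, Y⁆ * ⁅Y, ⁅y, x⁆⁆)) = gk (2 * e + 1) ⁅O.ev Pa y, O.ev Pa Y⁆ := by
    rw [map_mul, gk_mul (gm_hom _ G1) (gm_hom _ G2), (gk_zero (gm_hom _ G2)).2 g2, add_zero, map_commutatorElement]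
  rw [h2, h3, e3, map_commutatorElement (O.ev Pa) y x]
  ring

/-- the functional of a root, for `Dj` -/
theorem rtf_dj {J V : Type} (he : 1 ≤ e) (O : OwL P P' A Be (Fin (2 * e + 1))) (Pa : Par)
    (B : ∀ i j : ℕ, Gr (Sp Pa A) i →+ Gr (Sp Pa A) j →+ ZMod q) (ψ : Sp Pa Be → ZMod q)
    (h1 : ∀ u ∈ O.Kk Pa Finset.univ, u ∈ gm (Sp Pa Be) (2 * e + 1) → ∀ v ∈ O.Kk Pa Finset.univ,
      v ∈ gm (Sp Pa Be) (2 * e + 1) → ψ (u * v) = ψ u + ψ v)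
    (hB : ∀ (i j : ℕ) (J J' : Finset (Fin (2 * e + 1))), i + j = 2 * e + 2 → 1 ≤ i → 1 ≤ j → J ∪ J' = Finset.univ →
      ∀ u ∈ O.Kk Pa J, u ∈ gm (Sp Pa Be) i → ∀ v ∈ O.Kk Pa J', v ∈ gm (Sp Pa Be) j →
        ψ ⁅u, v⁆ = -B i j (gk i (O.ev Pa u)) (gk j (O.ev Pa v)))
    {k : Fin (2 * e + 1)} {y Y : Sp Pa Be} (hy : y ∈ O.Kk Pa {k}) (hY : Y ∈ O.Kk Pa {k}ᶜ)
    (gY : Y ∈ gm (Sp Pa Be) (2 * e)) (X : AD (Sp Pa Be) P' J V) (τ : V → Sp Pa Be) (x : J → SP (Sp Pa Be) P') (j : J)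
    (c x' : Sp Pa Be) (ht : X.t j = (il y : SP (Sp Pa Be) P')) (hx : x j = (il x' : SP (Sp Pa Be) P'))
    (hc : H24.OW.cn X τ x j = (il c : SP (Sp Pa Be) P')) (chi : Sp Pa A → ZMod q) :
    chi (O.ev Pa Y) + ψ (H24.OW.Dj X τ x j Y) =
      Fft (e := e) Pa B chi (O.ev Pa y) (O.ev Pa c) (O.ev Pa x') (O.ev Pa Y) + ψ ⁅y, Y⁆ := by
  have e1 : ⁅(il y : SP (Sp Pa Be) P'), (il x' : SP (Sp Pa Be) P')⁆ = il ⁅y, x'⁆ := by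
    rw [commutatorElement_def, commutatorElement_def, H73.S3.il_mul, H73.S3.il_mul, H73.S3.il_mul, H73.S3.il_inv, H73.S3.il_inv]
  have h5 : H24.OW.Dj X τ x j Y = c * ((y * Y * y⁻¹) * (⁅y, x'⁆ * Y⁻¹ * ⁅y, x'⁆⁻¹)) * c⁻¹ := by
    unfold H24.OW.Dj H24.OW.dl
    rw [hc, ht, hx, e1, H24.OW.il_cjl, H24.OW.il_cjl, H24.OW.il_cjl]
  rw [h5, rtf he O Pa B ψ h1 hB hy hY gY, Fft]
  ring

end H57.OW
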